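import Pool.Agent.H.MP_42e49e_nt.RS.Defs

/-!
# Counting the bad shifts
-/

set_option autoImplicit false

open Finset

namespace Pool.MP42e49e.RS

open Pool.MP42e49e.ER

/-- PROOF. The left set is the union over `b ≤ y` of the preimages under the injections `m ↦ (m + b) % M` and `m ↦ ((M - 1) * (m + b)) % M` of `range M` into itself
(`M - 1` is coprime to `M`; for `M = 1` trivial). -/
theorem shift_card (M y : ℕ) (hM : 0 < M) (P : ℕ → Prop) [DecidablePred P] :
    (({m | m < M ∧ ∃ b, b ≤ y ∧ (P ((m + b) % M) ∨ P (((M - 1) * (m + b)) % M))} : Set ℕ).ncard : ℝ) ≤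
      2 * (y + 1) * ((range M).filter P).card := by
  classical
  set K : ℕ := ((range M).filter P).card with hK
  have hA : ∀ b : ℕ, ((range M).filter fun m => P ((m + b) % M)).card ≤ K := by
    intro b
    rw [hK]
    apply Finset.card_le_card_of_injOn (fun m => (m + b) % M)
    · intro m hm
      have hm' := Finset.mem_filter.mp hm
      exact Finset.mem_coe.mpr (Finset.mem_filter.mpr
        ⟨Finset.mem_range.mpr (Nat.mod_lt _ hM), hm'.2⟩)
    · intro m hm m' hm' h
      have h1 := Finset.mem_range.mp (Finset.mem_filter.mp hm).1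
      have h2 := Finset.mem_range.mp (Finset.mem_filter.mp hm').1
      have h3 : m + b ≡ m' + b [MOD M] := h
      have h4 : m ≡ m' [MOD M] := Nat.ModEq.add_right_cancel' b h3
      exact Nat.ModEq.eq_of_lt_of_lt h4 h1 h2
  have hB : ∀ b : ℕ, ((range M).filter fun m => P (((M - 1) * (m + b)) % M)).card ≤ K := by
    intro b
    rw [hK]
    apply Finset.card_le_card_of_injOn (fun m => ((M - 1) * (m + b)) % M)
    · intro m hm
      have hm' := Finset.mem_filter.mp hm
      exact Finset.mem_coe.mpr (Finset.mem_filter.mpr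
        ⟨Finset.mem_range.mpr (Nat.mod_lt _ hM), hm'.2⟩)
    · intro m hm m' hm' h
      have h1 := Finset.mem_range.mp (Finset.mem_filter.mp hm).1
      have h2 := Finset.mem_range.mp (Finset.mem_filter.mp hm').1
      have h3 : (M - 1) * (m + b) ≡ (M - 1) * (m' + b) [MOD M] := h
      have hco : Nat.gcd M (M - 1) = 1 :=
        (Nat.coprime_self_sub_right (m := 1) (n := M) hM).mpr (Nat.coprime_one_right M)
      have h3' : m + b ≡ m' + b [MOD M] := Nat.ModEq.cancel_left_of_coprime hco h3
      have h4 : m ≡ m' [MOD M] := Nat.ModEq.add_right_cancel' b h3'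
      exact Nat.ModEq.eq_of_lt_of_lt h4 h1 h2
  have hsub : ({m | m < M ∧ ∃ b, b ≤ y ∧ (P ((m + b) % M) ∨ P (((M - 1) * (m + b)) % M))} : Set ℕ) ⊆
      (((range (y + 1)).biUnion fun b => ((range M).filter fun m => P ((m + b) % M)) ∪
        ((range M).filter fun m => P (((M - 1) * (m + b)) % M)) : Finset ℕ) : Set ℕ) := by
    rintro m ⟨hm, b, hb, hP⟩
    rw [Finset.mem_coe, Finset.mem_biUnion]
    refine ⟨b, Finset.mem_range.mpr (by omega), ?_⟩
    rw [Finset.mem_union, Finset.mem_filter, Finset.mem_filter]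
    rcases hP with hP | hP
    · exact Or.inl ⟨Finset.mem_range.mpr hm, hP⟩
    · exact Or.inr ⟨Finset.mem_range.mpr hm, hP⟩
  have hcard := Set.ncard_le_ncard hsub (Finset.finite_toSet _)
  rw [Set.ncard_coe_finset] at hcard
  have hle : ((range (y + 1)).biUnion fun b => ((range M).filter fun m => P ((m + b) % M)) ∪
        ((range M).filter fun m => P (((M - 1) * (m + b)) % M))).card ≤ (y + 1) * (K + K) := by
    calc _ ≤ (range (y + 1)).card * (K + K) := by
          apply Finset.card_biUnion_le_card_mul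
          intro b _
          exact (Finset.card_union_le _ _).trans (add_le_add (hA b) (hB b))
      _ = (y + 1) * (K + K) := by rw [Finset.card_range]
  have hfin := hcard.trans hle
  calc (({m | m < M ∧ ∃ b, b ≤ y ∧ (P ((m + b) % M) ∨ P (((M - 1) * (m + b)) % M))} :
        Set ℕ).ncard : ℝ) ≤ (((y + 1) * (K + K) : ℕ) : ℝ) := by exact_mod_cast hfin
    _ = 2 * (y + 1) * (K : ℝ) := by push_cast; ring

/-- PROOF. Union bound; `(pw z x).card ≤ x`, `(range p).card = p ≤ x`. (`cnt F l T = ∑ m ∈ range l.prod, if F (srv l m T).card then 1 else 0`.) -/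
theorem bad_card {X x z : ℕ} {l : List ℕ} {s0 ε : ℝ} {τ : ℕ → ℝ} (hε : 0 ≤ ε)
    (h1 : (cnt (fun s => (s : ℝ) < s0) l (PX X) : ℝ) ≤ l.prod * ε)
    (h2 : ∀ p ∈ pw z x, ∀ c ∈ range p,
      (cnt (fun s => τ p < (s : ℝ)) l (Tc X p c) : ℝ) ≤ l.prod * ε)
    [DecidablePred (Bad X x z l s0 τ)] :
    (((range l.prod).filter (Bad X x z l s0 τ)).card : ℝ) ≤ l.prod * ((1 + (x : ℝ) ^ 2) * ε) := by
  classical
  have hc1 : ∀ (F : ℕ → Prop) [DecidablePred F] (T : Finset ℕ),
      (((range l.prod).filter fun v => F (srv l v T).card).card) = cnt F l T := by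
    intro F _ T
    rw [Finset.card_filter]
    rfl
  set N : ℕ := l.prod with hN
  have hsub : (range N).filter (Bad X x z l s0 τ) ⊆
      ((range N).filter fun v => ((srv l v (PX X)).card : ℝ) < s0) ∪
      (pw z x).biUnion fun p => (range p).biUnion fun c =>
        (range N).filter fun v => τ p < ((srv l v (Tc X p c)).card : ℝ) := by
    intro v hv
    obtain ⟨hv1, hv2⟩ := Finset.mem_filter.mp hv
    rw [Finset.mem_union, Finset.mem_filter, Finset.mem_biUnion]
    rcases hv2 with hv2 | ⟨p, hp, c, hc, hv2⟩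
    · exact Or.inl ⟨hv1, hv2⟩
    · exact Or.inr ⟨p, hp, Finset.mem_biUnion.mpr ⟨c, hc, Finset.mem_filter.mpr ⟨hv1, hv2⟩⟩⟩
  have hpw : ∀ p ∈ pw z x, 1 ≤ p ∧ p ≤ x := by
    intro p hp
    obtain ⟨h3, -, h4⟩ := mem_pw.mp hp
    exact ⟨h3.one_lt.le, h4⟩
  have hpwc : (pw z x).card ≤ x := by
    calc (pw z x).card ≤ (Finset.Icc 1 x).card := by
          apply Finset.card_le_card
          intro p hp
          exact Finset.mem_Icc.mpr (hpw p hp)
      _ = x := by simp
  have hNε : (0 : ℝ) ≤ N * ε := by positivity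
  have hp1 : ∀ p ∈ pw z x, ((((range p).biUnion fun c =>
        (range N).filter fun v => τ p < ((srv l v (Tc X p c)).card : ℝ)).card : ℕ) : ℝ)
        ≤ x * (N * ε) := by
    intro p hp
    calc ((((range p).biUnion fun c =>
        (range N).filter fun v => τ p < ((srv l v (Tc X p c)).card : ℝ)).card : ℕ) : ℝ)
        ≤ ((∑ c ∈ range p, ((range N).filter fun v =>
            τ p < ((srv l v (Tc X p c)).card : ℝ)).card : ℕ) : ℝ) := by
          exact_mod_cast Finset.card_biUnion_le
      _ = ∑ c ∈ range p, (((range N).filter fun v =>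
            τ p < ((srv l v (Tc X p c)).card : ℝ)).card : ℝ) := by push_cast; rfl
      _ ≤ ∑ _c ∈ range p, (N * ε : ℝ) := by
          apply Finset.sum_le_sum
          intro c hc
          have := h2 p hp c hc
          rw [← hc1 (fun s => τ p < (s : ℝ)) (Tc X p c)] at this
          exact this
      _ = p * (N * ε) := by rw [Finset.sum_const, Finset.card_range, nsmul_eq_mul]
      _ ≤ x * (N * ε) := by
          have : (p : ℝ) ≤ x := by exact_mod_cast (hpw p hp).2
          exact mul_le_mul_of_nonneg_right this hNε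
  have h1' := h1
  rw [← hc1 (fun s => (s : ℝ) < s0) (PX X)] at h1'
  calc (((range N).filter (Bad X x z l s0 τ)).card : ℝ)
      ≤ ((((range N).filter fun v => ((srv l v (PX X)).card : ℝ) < s0).card +
        ∑ p ∈ pw z x, ((range p).biUnion fun c =>
        (range N).filter fun v => τ p < ((srv l v (Tc X p c)).card : ℝ)).card : ℕ) : ℝ) := by
        have e1 := Finset.card_le_card hsub
        have e2 := Finset.card_union_le ((range N).filter fun v => ((srv l v (PX X)).card : ℝ) < s0)
          ((pw z x).biUnion fun p => (range p).biUnion fun c =>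
            (range N).filter fun v => τ p < ((srv l v (Tc X p c)).card : ℝ))
        have e3 := Finset.card_biUnion_le (s := pw z x) (t := fun p => (range p).biUnion fun c =>
            (range N).filter fun v => τ p < ((srv l v (Tc X p c)).card : ℝ))
        exact_mod_cast e1.trans (e2.trans (Nat.add_le_add_left e3 _))
    _ = (((range N).filter fun v => ((srv l v (PX X)).card : ℝ) < s0).card : ℝ) +
        ∑ p ∈ pw z x, ((((range p).biUnion fun c =>
        (range N).filter fun v => τ p < ((srv l v (Tc X p c)).card : ℝ)).card : ℕ) : ℝ) := by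
        push_cast
        rfl
    _ ≤ N * ε + ∑ _p ∈ pw z x, (x * (N * ε) : ℝ) :=
        add_le_add h1' (Finset.sum_le_sum hp1)
    _ = N * ε + (pw z x).card * (x * (N * ε)) := by rw [Finset.sum_const, nsmul_eq_mul]
    _ ≤ N * ε + x * (x * (N * ε)) := by
        have : ((pw z x).card : ℝ) ≤ x := by exact_mod_cast hpwc
        have h5 : (0 : ℝ) ≤ x * (N * ε) := by positivity
        nlinarith [mul_le_mul_of_nonneg_right this h5]
    _ = N * ((1 + (x : ℝ) ^ 2) * ε) := by ring

end Pool.MP42e49e.RS
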