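import Pool.Agent.H.MP_42e49e_nt.RS.Defs

/-!
# Coverings give bad shifts
-/

set_option autoImplicit false

open Finset

namespace Pool.MP42e49e.RS

open Pool.MP42e49e.ER

theorem Cov_mem_PX {X q : ℕ} (hq : q ∈ PX X) : q.Prime ∧ X < q ∧ q ≤ 2 * X := by
  unfold PX at hq
  rw [Pool.Agent.H.MP_711652_nt.CH.clp, mem_filter, mem_filter, mem_Ioc] at hq
  exact ⟨hq.2, hq.1.1⟩

/-- A shift for which every surviving point lies in the class modulo a large prime is bad. -/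
theorem Cov_core {X x z b v w : ℕ} {a : ℕ → ℤ} {l : List ℕ} {s0 : ℝ} {τ : ℕ → ℝ} (c : ℕ → ℕ)
    (hl : ∀ q, q ∈ l ↔ q ∈ pw w z)
    (hc : ∀ p ∈ pw z x, c p < p)
    (h : ∀ q ∈ PX X, (∃ p ∈ pw w z, p ∣ v + q) ∨
      ∃ p ∈ pw z x, (¬ a p ≡ b [ZMOD (p : ℤ)]) ∧ p ∣ c p + q)
    (hsum : ∑ p ∈ (pw z x).filter (fun p : ℕ => ¬ a p ≡ b [ZMOD (p : ℤ)]), τ p < s0) :
    Bad X x z l s0 τ (v % l.prod) := by
  classical
  by_contra hbad
  unfold Bad at hbad
  push Not at hbad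
  obtain ⟨h1, h2⟩ := hbad
  rw [srv_mod (dvd_refl _)] at h1
  have hsub : srv l v (PX X) ⊆ ((pw z x).filter (fun p : ℕ => ¬ a p ≡ b [ZMOD (p : ℤ)])).biUnion
      fun p => srv l v (Tc X p (c p)) := by
    intro q hq
    unfold srv at hq
    rw [mem_filter] at hq
    rw [mem_biUnion]
    rcases h q hq.1 with ⟨p, hp, hd⟩ | ⟨p, hp, hap, hd⟩
    · exact absurd hd (hq.2 p ((hl p).2 hp))
    · refine ⟨p, mem_filter.2 ⟨hp, hap⟩, ?_⟩
      unfold srv Tc
      rw [mem_filter, mem_filter]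
      exact ⟨⟨hq.1, hd⟩, hq.2⟩
  have h3 : ((srv l v (PX X)).card : ℝ) ≤
      ∑ p ∈ (pw z x).filter (fun p : ℕ => ¬ a p ≡ b [ZMOD (p : ℤ)]),
        ((srv l v (Tc X p (c p))).card : ℝ) := by
    exact_mod_cast (card_le_card hsub).trans card_biUnion_le
  have h4 : ∑ p ∈ (pw z x).filter (fun p : ℕ => ¬ a p ≡ b [ZMOD (p : ℤ)]),
        ((srv l v (Tc X p (c p))).card : ℝ) ≤
      ∑ p ∈ (pw z x).filter (fun p : ℕ => ¬ a p ≡ b [ZMOD (p : ℤ)]), τ p := by
    refine sum_le_sum fun p hp => ?_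
    have hp' := (mem_filter.1 hp).1
    have h5 := h2 p hp' (c p) (mem_range.2 (hc p hp'))
    rwa [srv_mod (dvd_refl _)] at h5
  linarith

/-- PROOF. Contrapositive: suppose `v = (m + b) % l.prod` (if `2 b ≤ y`), resp. `v = ((l.prod - 1) * (m + b)) % l.prod` (if `y < 2 b`) is not bad.
CASE `2 b ≤ y`. For `q ∈ PX X` (`X < q ≤ 2 X`) the point `n = b + q` is in `[1, y]`, so `n ≡ a p` for a prime `p ≤ x`. `p ≤ w` is impossible: `b ≡ a p`, so `p ∣ q`, `p = q > X ≥ x`.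
`w < p ≤ z`: `p ∣ m + a p` (`hm`), so `p ∣ m + n = (m + b) + q`, so `q` is not in `srv l v (PX X)` (`mem_srv` of `Core3.lean`, `dvd_mod_add`, `p ∣ l.prod`). `z < p ≤ x`: if
`b ≡ a p` then `p = q` as before, impossible; so `p` is in the filtered set `E` of `hsum` and `p ∣ c p + q` with `c p < p`, `c p ≡ b - a p (mod p)` (`c p = ((b - a p) % p).toNat`).
So `srv l v (PX X) ⊆ ⋃_{p ∈ E} srv l v (Tc X p (c p))`, hence `s0 ≤ |srv l v (PX X)| ≤ ∑_{p ∈ E} τ p < s0`, contradiction.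
CASE `y < 2 b`: the same with `n = b - q ∈ [1, y]` (`q ≤ 2 X < b`), `p ∣ m + n = (m + b) - q` iff `p ∣ (l.prod - 1) (m + b) + q` (for `p ∣ l.prod`), and `c p ≡ a p - b`. -/
theorem cov_bad {X x y w z b m : ℕ} {a : ℕ → ℤ} {l : List ℕ} {s0 : ℝ} {τ : ℕ → ℝ}
    (hl : ∀ q, q ∈ l ↔ q ∈ pw w z) (hlp : 0 < l.prod) (hzx : z ≤ x) (hxX : x ≤ X)
    (hXy : 4 * X + 4 ≤ y) (hb : b ≤ y)
    (hm : ∀ p ∈ pw w z, (p : ℤ) ∣ (m : ℤ) + a p)
    (htiny : ∀ p : ℕ, p.Prime → p ≤ w → a p ≡ b [ZMOD (p : ℤ)])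
    (hcov : ∀ n : ℕ, 1 ≤ n → n ≤ y → ∃ p : ℕ, p.Prime ∧ p ≤ x ∧ (n : ℤ) ≡ a p [ZMOD (p : ℤ)])
    (hsum : ∑ p ∈ (pw z x).filter (fun p : ℕ => ¬ a p ≡ b [ZMOD (p : ℤ)]), τ p < s0) :
    Bad X x z l s0 τ ((m + b) % l.prod) ∨ Bad X x z l s0 τ (((l.prod - 1) * (m + b)) % l.prod) := by
  have hprime : ∀ q ∈ PX X, ∀ p : ℕ, p.Prime → p ≤ x → ¬ (p : ℤ) ∣ (q : ℤ) := by
    intro q hq p hp hpx hd
    obtain ⟨hq1, hq2, -⟩ := Cov_mem_PX hq
    have h1 : p ∣ q := by exact_mod_cast hd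
    have h2 := (Nat.prime_dvd_prime_iff_eq hp hq1).1 h1
    omega
  rcases le_or_gt (2 * b) y with hby | hby
  · left
    refine Cov_core (b := b) (a := a) (w := w) (fun p => (((b : ℤ) - a p) % (p : ℤ)).toNat) hl ?_ ?_
      hsum
    · intro p hp
      rw [mem_pw] at hp
      have hp0 : (0 : ℤ) < p := by exact_mod_cast hp.1.pos
      have h1 := Int.emod_lt_of_pos ((b : ℤ) - a p) hp0
      have h2 := Int.emod_nonneg ((b : ℤ) - a p) hp0.ne'
      omega
    · intro q hq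
      obtain ⟨hq1, hq2, hq3⟩ := Cov_mem_PX hq
      obtain ⟨p, hp, hpx, hcg⟩ := hcov (b + q) (by omega) (by omega)
      push_cast at hcg
      have hd : (p : ℤ) ∣ ((b : ℤ) + q) - a p := by
        have := hcg.symm.dvd
        exact this
      have hne : ¬ a p ≡ b [ZMOD (p : ℤ)] := by
        intro h
        apply hprime q hq p hp hpx
        have h1 : (p : ℤ) ∣ (b : ℤ) - a p := h.dvd
        have h2 := dvd_sub hd h1
        have h3 : ((b : ℤ) + q) - a p - ((b : ℤ) - a p) = q := by ring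
        rwa [h3] at h2
      rcases le_or_gt p w with hpw | hpw
      · exact absurd (htiny p hp hpw) hne
      rcases le_or_gt p z with hpz | hpz
      · left
        have hpm : p ∈ pw w z := mem_pw.2 ⟨hp, hpw, hpz⟩
        refine ⟨p, hpm, ?_⟩
        have h1 := dvd_add (hm p hpm) hd
        have h3 : ((m : ℤ) + a p) + (((b : ℤ) + q) - a p) = ((m + b + q : ℕ) : ℤ) := by
          push_cast; ring
        rw [h3] at h1
        exact_mod_cast h1
      · right
        have hpm : p ∈ pw z x := mem_pw.2 ⟨hp, hpz, hpx⟩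
        refine ⟨p, hpm, hne, ?_⟩
        have hp0 : (0 : ℤ) < p := by exact_mod_cast hp.pos
        have h2 := Int.emod_nonneg ((b : ℤ) - a p) hp0.ne'
        have h4 : ((((((b : ℤ) - a p) % (p : ℤ)).toNat + q : ℕ)) : ℤ)
            = ((b : ℤ) - a p) % (p : ℤ) + q := by
          push_cast
          rw [Int.toNat_of_nonneg h2]
        have h5 : (p : ℤ) ∣ (((((b : ℤ) - a p) % (p : ℤ)).toNat + q : ℕ) : ℤ) := by
          rw [h4]
          have h6 : (p : ℤ) ∣ ((b : ℤ) - a p) - ((b : ℤ) - a p) % (p : ℤ) :=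
            Int.dvd_self_sub_emod
          have h7 := dvd_sub hd h6
          have h8 : ((b : ℤ) + q) - a p - (((b : ℤ) - a p) - ((b : ℤ) - a p) % (p : ℤ))
              = ((b : ℤ) - a p) % (p : ℤ) + q := by ring
          rwa [h8] at h7
        exact_mod_cast h5
  · right
    refine Cov_core (b := b) (a := a) (w := w) (fun p => ((a p - (b : ℤ)) % (p : ℤ)).toNat) hl ?_ ?_
      hsum
    · intro p hp
      rw [mem_pw] at hp
      have hp0 : (0 : ℤ) < p := by exact_mod_cast hp.1.pos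
      have h1 := Int.emod_lt_of_pos (a p - (b : ℤ)) hp0
      have h2 := Int.emod_nonneg (a p - (b : ℤ)) hp0.ne'
      omega
    · intro q hq
      obtain ⟨hq1, hq2, hq3⟩ := Cov_mem_PX hq
      have hqb : q ≤ b := by omega
      obtain ⟨p, hp, hpx, hcg⟩ := hcov (b - q) (by omega) (by omega)
      rw [Nat.cast_sub hqb] at hcg
      have hd : (p : ℤ) ∣ ((b : ℤ) - q) - a p := by
        have := hcg.symm.dvd
        exact this
      have hne : ¬ a p ≡ b [ZMOD (p : ℤ)] := by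
        intro h
        apply hprime q hq p hp hpx
        have h1 : (p : ℤ) ∣ (b : ℤ) - a p := h.dvd
        have h2 := dvd_sub h1 hd
        have h3 : ((b : ℤ) - a p) - (((b : ℤ) - q) - a p) = q := by ring
        rwa [h3] at h2
      rcases le_or_gt p w with hpw | hpw
      · exact absurd (htiny p hp hpw) hne
      rcases le_or_gt p z with hpz | hpz
      · left
        have hpm : p ∈ pw w z := mem_pw.2 ⟨hp, hpw, hpz⟩
        refine ⟨p, hpm, ?_⟩
        have hpl : (p : ℤ) ∣ (l.prod : ℤ) := by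
          exact_mod_cast List.dvd_prod ((hl p).2 hpm)
        have h1 := dvd_add (hm p hpm) hd
        have h2 : (p : ℤ) ∣ (l.prod : ℤ) * ((m : ℤ) + b) := Dvd.dvd.mul_right hpl _
        have h3 := dvd_sub h2 h1
        have h4 : (l.prod : ℤ) * ((m : ℤ) + b) - (((m : ℤ) + a p) + (((b : ℤ) - q) - a p))
            = (((l.prod - 1) * (m + b) + q : ℕ) : ℤ) := by
          have h5 : ((l.prod - 1 : ℕ) : ℤ) = (l.prod : ℤ) - 1 := by
            rw [Nat.cast_sub hlp, Nat.cast_one]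
          rw [Nat.cast_add, Nat.cast_mul, h5]
          push_cast
          ring
        rw [h4] at h3
        exact_mod_cast h3
      · right
        have hpm : p ∈ pw z x := mem_pw.2 ⟨hp, hpz, hpx⟩
        refine ⟨p, hpm, hne, ?_⟩
        have hp0 : (0 : ℤ) < p := by exact_mod_cast hp.pos
        have h2 := Int.emod_nonneg (a p - (b : ℤ)) hp0.ne'
        have h4 : ((((a p - (b : ℤ)) % (p : ℤ)).toNat + q : ℕ) : ℤ)
            = (a p - (b : ℤ)) % (p : ℤ) + q := by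
          push_cast
          rw [Int.toNat_of_nonneg h2]
        have h5 : (p : ℤ) ∣ ((((a p - (b : ℤ)) % (p : ℤ)).toNat + q : ℕ) : ℤ) := by
          rw [h4]
          have h6 : (p : ℤ) ∣ (a p - (b : ℤ)) - (a p - (b : ℤ)) % (p : ℤ) :=
            Int.dvd_self_sub_emod
          have h7 := (dvd_add hd h6).neg_right
          have h8 : -(((b : ℤ) - q) - a p + ((a p - (b : ℤ)) - (a p - (b : ℤ)) % (p : ℤ)))
              = (a p - (b : ℤ)) % (p : ℤ) + q := by ring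
          rwa [h8] at h7
        exact_mod_cast h5

end Pool.MP42e49e.RS
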