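import Pool.Agent.H.MP_42e49e_nt.ER.ThetaX
import Pool.Agent.H.MP_42e49e_nt.R2Sum
import Pool.Agent.H.MP_42e49e_nt.SelSmall

/-!
# Random sieving of the primes of `(X, 2 X]`: definitions
-/

set_option autoImplicit false

namespace Pool.MP42e49e.RS

open Finset Pool.MP42e49e.ER

/-- The primes of `(X, 2 X]` in the class of `-c` modulo `p`. -/
def Tc (X p c : ℕ) : Finset ℕ := (PX X).filter fun q => p ∣ c + q

/-- `v` is bad: few primes of `(X, 2 X]` survive, or many of them in a class modulo a prime of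
`(z, x]`. -/
def Bad (X x z : ℕ) (l : List ℕ) (s0 : ℝ) (τ : ℕ → ℝ) (v : ℕ) : Prop :=
  ((srv l v (PX X)).card : ℝ) < s0 ∨
    ∃ p ∈ pw z x, ∃ c ∈ range p, τ p < ((srv l v (Tc X p c)).card : ℝ)

/-- The parameters: `L = log x`, `l = log L`, `k = log l`, `ρ = log w / log z`, and `X` of size
`x L / (ρ k)`. -/
structure Rs (x w z X : ℕ) (L l k ρ : ℝ) : Prop where
  hL : L = Real.log x
  hl : l = Real.log L
  hk : k = Real.log l
  hρ : ρ = Real.log w / Real.log z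
  hw : L ^ 3 ≤ w
  hwz : w ≤ z
  hzx : z ≤ x
  hk1 : 1000 ≤ k
  hX1 : 60000 * (x * L) ≤ X * (ρ * k)
  hX2 : X * (ρ * k) ≤ 120000 * (x * L)
  hT : (X : ℝ) / 2 ≤ ∑ q ∈ PX X, Pool.Agent.H.MP_711652_nt.CH.thn q

/-- The bound for the survivors in a class modulo `p`. -/
noncomputable def tau (x X : ℕ) (L l k ρ : ℝ) (p : ℕ) : ℝ :=
  504 * (ρ * (X / p)) / l + if p * Real.exp (k / 2) ≤ x then 9 * L else 40 * L / k

end Pool.MP42e49e.RS
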