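import Pool.Agent.H.MP_42e49e_nt.RS.Defs

/-!
# Elements of short progressions
-/

set_option autoImplicit false

open Finset

namespace Pool.MP42e49e.RS

open Pool.MP42e49e.ER Pool.Agent.H.MP_3e6494_nt

/-- PROOF. If `n < n'` are in `S` with `q ∣ c' + n`, `q ∣ c' + n'`: `q ∣ n' - n`, `p ∣ n' - n`, so `q * p ∣ n' - n > 0` and `n' - n < L ≤ w * p < q * p`. -/
theorem filter_le_one {S : Finset ℕ} {p w Y L c : ℕ} (hS : ∀ n ∈ S, p ∣ c + n ∧ Y < n ∧ n ≤ Y + L)
    (hp : 0 < p) (hL : L ≤ w * p) {q : ℕ} (hwq : w < q) (hqp : Nat.Coprime q p) (c' : ℕ) :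
    (S.filter fun n => q ∣ c' + n).card ≤ 1 := by
  have key : ∀ n ∈ S, ∀ m ∈ S, q ∣ c' + n → q ∣ c' + m → ¬ n < m := by
    intro n hn m hm hqn hqm hlt
    obtain ⟨hpn, hYn, -⟩ := hS n hn
    obtain ⟨hpm, -, hmL⟩ := hS m hm
    have h1 : q ∣ m - n := by
      have := Nat.dvd_sub hqm hqn
      rwa [Nat.add_sub_add_left] at this
    have h2 : p ∣ m - n := by
      have := Nat.dvd_sub hpm hpn
      rwa [Nat.add_sub_add_left] at this
    have h3 : q * p ∣ m - n := hqp.mul_dvd_of_dvd_of_dvd h1 h2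
    have h4 : q * p ≤ m - n := Nat.le_of_dvd (by omega) h3
    have h5 : w * p < q * p := Nat.mul_lt_mul_of_pos_right hwq hp
    omega
  rw [card_le_one]
  intro n hn m hm
  rw [mem_filter] at hn hm
  have h1 := key n hn.1 m hm.1 hn.2 hm.2
  have h2 := key m hm.1 n hn.1 hm.2 hn.2
  omega

/-- PROOF. `q ↦ q - Y` is injective from the set into `sv (fun _ => Y) (prm ⌊exp t⌋₊).toList (cls L p (c + Y))` (`mem_sv`, `mem_cls` of `Core3.lean`: `q - Y ∈ Icc 1 L`,
`p ∣ (c + Y) + (q - Y)`, and a prime `r ≤ exp t` does not divide `Y + (q - Y) = q`, a prime `> X ≥ ⌊exp t⌋₊ ≥ r`); `sel_small` with `y := L`. -/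
theorem bt {X Y L p c : ℕ} {t : ℝ} (hp : p.Prime) (hL : 0 < L) (hXY : X ≤ Y) (ht : 1 ≤ t)
    (h14 : 14 * t ≤ Real.log ((L : ℝ) / p)) (hup : ⌊Real.exp t⌋₊ < p)
    (hX : ⌊Real.exp t⌋₊ ≤ X) :
    (((PX X).filter fun q => p ∣ c + q ∧ Y < q ∧ q ≤ Y + L).card : ℝ) ≤
      3 * ((L : ℝ) / p / t) := by
  have h1 := sel_small hp hL ht h14 hup (fun _ => Y) (c + Y)
  refine le_trans ?_ h1
  have h2 : ((PX X).filter fun q => p ∣ c + q ∧ Y < q ∧ q ≤ Y + L).card ≤
      (sv (fun _ => Y) (prm ⌊Real.exp t⌋₊).toList (cls L p (c + Y))).card := by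
    refine card_le_card_of_injOn (fun q => q - Y) ?_ ?_
    · intro q hq
      rw [mem_coe, mem_filter] at hq
      obtain ⟨hqX, hpq, hYq, hqL⟩ := hq
      rw [PX, Pool.Agent.H.MP_711652_nt.CH.clp, mem_filter, mem_filter, mem_Ioc] at hqX
      rw [mem_coe, mem_sv, mem_cls, mem_Icc]
      beta_reduce
      refine ⟨⟨⟨by omega, by omega⟩, ?_⟩, ?_⟩
      · have h3 : c + Y + (q - Y) = c + q := by omega
        rw [h3]
        exact hpq
      · intro r hr hrd
        rw [mem_toList, mem_prm] at hr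
        have h3 : Y + (q - Y) = q := by omega
        rw [h3] at hrd
        have h4 := (Nat.prime_dvd_prime_iff_eq hr.1 hqX.2).1 hrd
        omega
    · intro q hq q' hq' hqq
      rw [mem_coe, mem_filter] at hq hq'
      simp only at hqq
      omega
  exact_mod_cast h2

end Pool.MP42e49e.RS
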