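import Pool.Agent.H.MP_42e49e_nt.Mer

/-!
# Moments of the number of survivors, at most one element in each class
-/

set_option autoImplicit false

open Finset

namespace Pool.MP42e49e.RS

theorem Key_conv {a b : ℝ} (ha : 0 ≤ a) (hb : 0 ≤ b) (n : ℕ) :
    a ^ (n + 1) + (n + 1) * a ^ n * (b - a) ≤ b ^ (n + 1) := by
  induction n with
  | zero => simp
  | succ n ih =>
    have h1 := mul_le_mul_of_nonneg_left ih hb
    have h2 : 0 ≤ (n + 1) * a ^ n * ((b - a) * (b - a)) :=
      mul_nonneg (by positivity) (mul_self_nonneg _)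
    push_cast
    have e1 : b ^ (n + 1 + 1) = b * b ^ (n + 1) := by ring
    have e2 : a ^ (n + 1 + 1) + ((n : ℝ) + 1 + 1) * a ^ (n + 1) * (b - a) =
        b * (a ^ (n + 1) + (n + 1) * a ^ n * (b - a)) -
          (n + 1) * a ^ n * ((b - a) * (b - a)) := by ring
    rw [e1, e2]
    linarith

/-- PROOF. Induction on `l` as `exp_moment` in `Exp.lean` (crt_sum, srv_cons, srv_mod, sum_del). Step `q :: l`, `P = PP l`, `r = 1 + (B - 1) * P ≥ 0` (as `0 ≤ P ≤ 1`, `PP_bound`),
`t = T.card`: the set `T.filter (¬ q ∣ c + n)` has `t` or `t - 1` elements, and `t - 1` for exactly `t` values of `c < q` (`sum_del`, each number is 0 or 1; so `t ≤ q`), so the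
sum is at most `l.prod * ((q - t) * r ^ t + t * r ^ (t - 1))` (for `t ≥ 1`; `t = 0` is trivial), and this is at most `q * l.prod * (r - (r - 1) / q) ^ t`
as `(r - (r - 1) / q) ^ t = (1 + (B - 1) * PP (q :: l)) ^ t`. The last inequality: if `r = 0` then directly; if `r > 0` it is
`r ^ t (1 - t (r - 1) / (r q)) ≤ r ^ t (1 - (r - 1) / (r q)) ^ t`, Bernoulli (`one_add_mul_le_pow`, needs `-2 ≤ -(r - 1) / (r q)`, true as `(r - 1) / r ≤ 1`). -/
theorem pow_moment {B : ℝ} (hB : 0 ≤ B) : ∀ l : List ℕ, (∀ q ∈ l, 2 ≤ q) →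
    l.Pairwise Nat.Coprime → ∀ T : Finset ℕ,
    (∀ q ∈ l, ∀ c, (T.filter fun n => q ∣ c + n).card ≤ 1) →
    ∑ m ∈ range l.prod, B ^ (srv l m T).card ≤ l.prod * (1 + (B - 1) * PP l) ^ T.card := by
  intro l
  induction l with
  | nil =>
    intro _ _ T _
    rw [List.prod_nil, sum_range_one, srv_nil, PP]
    simp
  | cons q l ih =>
    intro h2 hcop T hKT
    rw [List.pairwise_cons] at hcop
    have hl2 : ∀ x ∈ l, 2 ≤ x := fun x hx => h2 x (List.mem_cons_of_mem _ hx)
    have hl : ∀ x ∈ l, 0 < x := fun x hx => by have := hl2 x hx; omega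
    have hq2 : 2 ≤ q := h2 q (List.mem_cons_self)
    have hq : 0 < q := by omega
    have hq' : (0 : ℝ) < q := by exact_mod_cast hq
    have hlp : 0 < l.prod := List.prod_pos fun x hx => hl x hx
    have hc : Nat.Coprime q l.prod := coprime_prod hcop.1
    have hP := PP_bound l hl
    obtain ⟨r, hr⟩ : ∃ r : ℝ, r = 1 + (B - 1) * PP l := ⟨_, rfl⟩
    have hr0 : 0 ≤ r := by
      rw [hr]
      have h3 := mul_nonneg hB hP.1
      nlinarith [hP.2]
    have e0 : ∑ m ∈ range (q :: l).prod, B ^ (srv (q :: l) m T).card =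
        ∑ c ∈ range q, ∑ m ∈ range l.prod,
          B ^ (srv l m (T.filter fun n => ¬ q ∣ c + n)).card := by
      rw [List.prod_cons, ← crt_sum hq hlp hc
        (fun c m => B ^ (srv l m (T.filter fun n => ¬ q ∣ c + n)).card)]
      refine sum_congr rfl fun m _ => ?_
      rw [srv_cons, srv_mod dvd_rfl]
      have : (T.filter fun n => ¬ q ∣ m % q + n) = T.filter fun n => ¬ q ∣ m + n :=
        filter_congr fun n _ => by rw [dvd_mod_add dvd_rfl]
      rw [this]
    have h1 : ∀ c ∈ range q, ∑ m ∈ range l.prod,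
        B ^ (srv l m (T.filter fun n => ¬ q ∣ c + n)).card ≤
        l.prod * r ^ (T.filter fun n => ¬ q ∣ c + n).card := by
      intro c _
      rw [hr]
      exact ih hl2 hcop.2 (T.filter fun n => ¬ q ∣ c + n) (fun x hx c' => by
        refine le_trans ?_ (hKT x (List.mem_cons_of_mem _ hx) c')
        exact card_le_card (filter_subset_filter _ (filter_subset _ _)))
    rw [e0]
    refine (sum_le_sum h1).trans ?_
    rw [← mul_sum, List.prod_cons, Nat.cast_mul, mul_comm (q : ℝ) (l.prod : ℝ), mul_assoc]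
    refine mul_le_mul_of_nonneg_left ?_ (Nat.cast_nonneg _)
    have e1 : 1 + (B - 1) * PP (q :: l) = r - (r - 1) / q := by
      rw [PP, hr]
      field_simp
      ring
    rw [e1]
    rcases Nat.eq_zero_or_pos T.card with ht | ht
    · have hT : T = ∅ := card_eq_zero.1 ht
      subst hT
      simp
    · obtain ⟨n, hn⟩ : ∃ n, T.card = n + 1 := ⟨T.card - 1, by omega⟩
      have h3 : ∀ c ∈ range q, r ^ (T.filter fun n => ¬ q ∣ c + n).card =
          r ^ (n + 1) - ((T.filter fun n => q ∣ c + n).card : ℝ) * (r ^ n * (r - 1)) := by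
        intro c _
        have h4 := card_filter_add_card_filter_not (s := T) (fun n => q ∣ c + n)
        have h5 := hKT q List.mem_cons_self c
        rw [hn] at h4
        rcases Nat.eq_zero_or_pos (T.filter fun n => q ∣ c + n).card with h6 | h6
        · have h7 : (T.filter fun n => ¬ q ∣ c + n).card = n + 1 := by omega
          rw [h7, h6]
          simp
        · have h8 : (T.filter fun n => q ∣ c + n).card = 1 := by omega
          have h7 : (T.filter fun n => ¬ q ∣ c + n).card = n := by omega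
          rw [h7, h8, Nat.cast_one]
          ring
      rw [sum_congr rfl h3, sum_sub_distrib, ← sum_mul, sum_const, card_range]
      have h6 : ∑ c ∈ range q, ((T.filter fun n => q ∣ c + n).card : ℝ) = T.card := by
        exact_mod_cast sum_del hq T
      rw [h6, hn, nsmul_eq_mul]
      have hb : 0 ≤ r - (r - 1) / q := by
        have h7 : r - (r - 1) / q = r * (1 - 1 / q) + 1 / q := by
          field_simp
          ring
        rw [h7]
        have h8 := inv_le_one_of_pos hq
        have h9 : 0 ≤ 1 / (q : ℝ) := by positivity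
        have h10 := mul_nonneg hr0 (sub_nonneg.2 h8)
        linarith
      have h11 := Key_conv hr0 hb n
      have h12 := mul_le_mul_of_nonneg_left h11 hq'.le
      refine le_trans (le_of_eq ?_) h12
      push_cast
      field_simp
      ring

/-- PROOF. `cnt * B ^ τ ≤ ∑ B ^ |srv|` (real power `Real.rpow` or `exp (τ log B)`), `pow_moment`, `(1 + (B - 1) P) ^ t ≤ exp ((B - 1) P t)`, `t ≤ N`. -/
theorem cnt_upper {B N τ : ℝ} {l : List ℕ} {T : Finset ℕ} (hB : 1 ≤ B) (hl : ∀ q ∈ l, 2 ≤ q)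
    (hcop : l.Pairwise Nat.Coprime) (hT : (T.card : ℝ) ≤ N)
    (hKT : ∀ q ∈ l, ∀ c, (T.filter fun n => q ∣ c + n).card ≤ 1) :
    (cnt (fun s => τ < (s : ℝ)) l T : ℝ) ≤
      l.prod * Real.exp ((B - 1) * PP l * N - τ * Real.log B) := by
  have hpos : ∀ q ∈ l, 0 < q := fun q hq => by have := hl q hq; omega
  have hP := PP_bound l hpos
  have hB0 : 0 < B := by linarith
  have h1 := pow_moment hB0.le l hl hcop T hKT
  have hpow : ∀ s : ℕ, B ^ s = Real.exp (s * Real.log B) := by
    intro s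
    rw [← Real.log_pow, Real.exp_log (pow_pos hB0 s)]
  have hlog : 0 ≤ Real.log B := Real.log_nonneg hB
  have h2 : (cnt (fun s => τ < (s : ℝ)) l T : ℝ) * Real.exp (τ * Real.log B) ≤
      ∑ m ∈ range l.prod, B ^ (srv l m T).card := by
    unfold cnt
    rw [Nat.cast_sum, sum_mul]
    refine sum_le_sum fun m _ => ?_
    split_ifs with h
    · rw [Nat.cast_one, one_mul, hpow]
      exact Real.exp_le_exp.2 (mul_le_mul_of_nonneg_right h.le hlog)
    · rw [Nat.cast_zero, zero_mul]
      exact (pow_pos hB0 _).le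
  have h3 : (1 + (B - 1) * PP l) ^ T.card ≤ Real.exp ((B - 1) * PP l * N) := by
    have h4 : 0 ≤ (B - 1) * PP l := mul_nonneg (by linarith) hP.1
    have h5 : 1 + (B - 1) * PP l ≤ Real.exp ((B - 1) * PP l) := by
      have := Real.add_one_le_exp ((B - 1) * PP l)
      linarith
    calc (1 + (B - 1) * PP l) ^ T.card ≤ Real.exp ((B - 1) * PP l) ^ T.card :=
          pow_le_pow_left₀ (by linarith) h5 _
      _ = Real.exp ((B - 1) * PP l * T.card) := by
          rw [← Real.exp_nat_mul]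
          congr 1
          ring
      _ ≤ _ := Real.exp_le_exp.2 (mul_le_mul_of_nonneg_left hT h4)
  have h6 := (h2.trans h1).trans (mul_le_mul_of_nonneg_left h3 (Nat.cast_nonneg _))
  rw [sub_eq_add_neg, Real.exp_add, ← mul_assoc, Real.exp_neg, ← div_eq_mul_inv,
    le_div_iff₀ (Real.exp_pos _)]
  exact h6

/-- PROOF. `μ = PP l * T.card`, `B = 1 / 2`: `cnt * (1/2) ^ (μ / 2) ≤ ∑ (1/2) ^ |srv| ≤ l.prod * exp (- μ / 2)`, so `cnt ≤ l.prod * exp (- μ (1 - log 2) / 2)`,
and `(1 - log 2) / 2 ≥ 1 / 8` (`Real.log_two_lt_d9`). -/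
theorem cnt_lower {l : List ℕ} {T : Finset ℕ} (hl : ∀ q ∈ l, 2 ≤ q)
    (hcop : l.Pairwise Nat.Coprime)
    (hKT : ∀ q ∈ l, ∀ c, (T.filter fun n => q ∣ c + n).card ≤ 1) :
    (cnt (fun s => (s : ℝ) < PP l * T.card / 2) l T : ℝ) ≤
      l.prod * Real.exp (-(PP l * T.card / 8)) := by
  have hpos : ∀ q ∈ l, 0 < q := fun q hq => by have := hl q hq; omega
  have hP := PP_bound l hpos
  have h1 := pow_moment (B := 1 / 2) (by norm_num) l hl hcop T hKT
  obtain ⟨μ, hμ⟩ : ∃ μ : ℝ, μ = PP l * T.card := ⟨_, rfl⟩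
  have hμ0 : 0 ≤ μ := by rw [hμ]; exact mul_nonneg hP.1 (Nat.cast_nonneg _)
  have hl2 : 0 < Real.log 2 := Real.log_pos (by norm_num)
  have hpow : ∀ s : ℕ, (1 / 2 : ℝ) ^ s = Real.exp (-(s * Real.log 2)) := by
    intro s
    rw [one_div, inv_pow, Real.exp_neg, ← Real.log_pow, Real.exp_log (by positivity)]
  have h2 : (cnt (fun s => (s : ℝ) < PP l * T.card / 2) l T : ℝ) *
      Real.exp (-(μ / 2 * Real.log 2)) ≤ ∑ m ∈ range l.prod, (1 / 2 : ℝ) ^ (srv l m T).card := by
    unfold cnt
    rw [Nat.cast_sum, sum_mul]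
    refine sum_le_sum fun m _ => ?_
    split_ifs with h
    · rw [Nat.cast_one, one_mul, hpow]
      rw [← hμ] at h
      exact Real.exp_le_exp.2 (neg_le_neg (mul_le_mul_of_nonneg_right h.le hl2.le))
    · rw [Nat.cast_zero, zero_mul]
      positivity
  have h3 : (1 + (1 / 2 - 1) * PP l) ^ T.card ≤ Real.exp (-(μ / 2)) := by
    have h5 : 1 + (1 / 2 - 1) * PP l ≤ Real.exp (-(PP l / 2)) := by
      have := Real.add_one_le_exp (-(PP l / 2))
      linarith
    calc (1 + (1 / 2 - 1) * PP l) ^ T.card ≤ Real.exp (-(PP l / 2)) ^ T.card :=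
          pow_le_pow_left₀ (by linarith [hP.2]) h5 _
      _ = Real.exp (-(μ / 2)) := by
          rw [← Real.exp_nat_mul, hμ]
          congr 1
          ring
  have h6 := (h2.trans h1).trans (mul_le_mul_of_nonneg_left h3 (Nat.cast_nonneg _))
  have h8 : (l.prod : ℝ) * Real.exp (-(μ / 2)) / Real.exp (-(μ / 2 * Real.log 2)) =
      l.prod * Real.exp (-(μ / 2) - -(μ / 2 * Real.log 2)) := by
    rw [Real.exp_sub, mul_div_assoc]
  rw [← le_div_iff₀ (Real.exp_pos _), h8] at h6
  refine h6.trans (mul_le_mul_of_nonneg_left (Real.exp_le_exp.2 ?_) (Nat.cast_nonneg _))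
  rw [← hμ]
  have h7 := Real.log_two_lt_d9
  nlinarith

end Pool.MP42e49e.RS
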