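import Pool.Agent.H.MP_42e49e_nt.RS.Key
import Pool.Agent.H.MP_42e49e_nt.RS.Dist

/-!
# Few survivors are rare
-/

set_option autoImplicit false

open Finset

namespace Pool.MP42e49e.RS

open Pool.MP42e49e.ER

private theorem Low_mem {X q : ℕ} (h : q ∈ PX X) : X < q ∧ q ≤ 2 * X := by
  unfold PX Pool.Agent.H.MP_711652_nt.CH.clp at h
  rw [mem_filter, mem_filter, mem_Ioc] at h
  exact h.1.1

/-- PROOF. Windows `W j = (PX X).filter (X + j w < q ∧ q ≤ X + (j + 1) w)`, `j < J`, `J = X / w + 1 ≤ 2 X / w` (natural division; `w ≤ X`): they partition `PX X`. `μ j = PP l * |W j|`.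
Call `j` good if `t0 ≤ |W j|`. If `v` is such that `|srv l v (W j)| ≥ μ j / 2` for all good `j`, then
`|srv l v (PX X)| ≥ ∑_good μ j / 2 ≥ PP l / 2 * (|PX X| - J t0) ≥ PP l / 4 * |PX X|` as `J t0 ≤ (2 X / w) t0 ≤ |PX X| / 2`.
So the `v` counted on the left are counted in `cnt (s < μ j / 2) l (W j)` for some good `j`, at most `l.prod * exp (- μ j / 8) ≤ l.prod * exp (- PP l t0 / 8)` (`cnt_lower`,
`filter_le_one` with `p = 1`, `c = 0`, `Y = X + j w`, `L = w`), times `J ≤ 2 X / w`. (`cnt F l T = ∑ m ∈ range l.prod, if F (srv l m T).card then 1 else 0`.) -/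
theorem low {X w : ℕ} {l : List ℕ} {t0 : ℝ} (hw : 1 ≤ w) (hwX : w ≤ X) (hl : ∀ q ∈ l, 2 ≤ q ∧ w < q)
    (hcop : l.Pairwise Nat.Coprime) (ht0 : 0 ≤ t0)
    (h : 4 * ((X : ℝ) / w) * t0 ≤ (PX X).card) :
    (cnt (fun s => (s : ℝ) < PP l * (PX X).card / 4) l (PX X) : ℝ) ≤
      l.prod * (2 * ((X : ℝ) / w) * Real.exp (-(PP l * t0 / 8))) := by
  classical
  have hw' : (0 : ℝ) < w := by exact_mod_cast hw
  obtain ⟨W, hW⟩ : ∃ W : ℕ → Finset ℕ, ∀ j, W j = (PX X).filter (fun q => (q - X - 1) / w = j) :=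
    ⟨_, fun _ => rfl⟩
  obtain ⟨J, hJ⟩ : ∃ J, J = X / w + 1 := ⟨_, rfl⟩
  have hJr : (J : ℝ) ≤ 2 * ((X : ℝ) / w) := by
    have h1 : (1 : ℝ) ≤ (X : ℝ) / w := by
      rw [le_div_iff₀ hw', one_mul]
      exact_mod_cast hwX
    have h2 : ((X / w : ℕ) : ℝ) ≤ (X : ℝ) / w := Nat.cast_div_le
    rw [hJ]
    push_cast
    linarith
  have hmap : ∀ q ∈ PX X, (q - X - 1) / w ∈ range J := by
    intro q hq
    have h1 := Low_mem hq
    rw [hJ, mem_range, Order.lt_add_one_iff]
    exact Nat.div_le_div_right (by omega)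
  have hcard : ((PX X).card : ℝ) = ∑ j ∈ range J, ((W j).card : ℝ) := by
    have h1 : (PX X).card = ∑ j ∈ range J, ((PX X).filter (fun q => (q - X - 1) / w = j)).card :=
      card_eq_sum_card_fiberwise fun q hq => hmap q hq
    rw [h1]
    push_cast
    exact sum_congr rfl fun j _ => by rw [hW]
  have hsrv : ∀ m, ((srv l m (PX X)).card : ℝ) = ∑ j ∈ range J, ((srv l m (W j)).card : ℝ) := by
    intro m
    have h1 : (srv l m (PX X)).card =
        ∑ j ∈ range J, ((srv l m (PX X)).filter (fun q => (q - X - 1) / w = j)).card :=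
      card_eq_sum_card_fiberwise fun q hq => hmap q (filter_subset _ _ hq)
    rw [h1]
    push_cast
    refine sum_congr rfl fun j _ => ?_
    rw [hW]
    unfold srv
    rw [filter_comm]
  have hP := PP_bound l (fun q hq => by have := (hl q hq).1; omega)
  have hPt : 0 ≤ PP l * t0 := mul_nonneg hP.1 ht0
  have key : ∀ m, ((srv l m (PX X)).card : ℝ) < PP l * (PX X).card / 4 →
      ∃ j ∈ (range J).filter (fun j => t0 ≤ ((W j).card : ℝ)),
        ((srv l m (W j)).card : ℝ) < PP l * (W j).card / 2 := by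
    intro m hm
    by_contra hc
    push Not at hc
    have h1 : ∀ j ∈ range J, PP l * (W j).card / 2 - PP l * t0 / 2 ≤
        ((srv l m (W j)).card : ℝ) := by
      intro j hj
      by_cases hg : t0 ≤ ((W j).card : ℝ)
      · have h2 := hc j (mem_filter.2 ⟨hj, hg⟩)
        linarith
      · rw [not_le] at hg
        have h2 := mul_le_mul_of_nonneg_left hg.le hP.1
        have h3 : (0 : ℝ) ≤ ((srv l m (W j)).card : ℝ) := Nat.cast_nonneg _
        linarith
    have h2 := sum_le_sum h1
    rw [← hsrv, sum_sub_distrib, sum_const, card_range, nsmul_eq_mul, ← sum_div, ← mul_sum,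
      ← hcard] at h2
    have h3 : (J : ℝ) * (PP l * t0 / 2) ≤ PP l * (PX X).card / 4 := by
      have h4 := mul_le_mul_of_nonneg_right hJr (show 0 ≤ PP l * t0 / 2 by linarith)
      have h5 := mul_le_mul_of_nonneg_left h hP.1
      calc (J : ℝ) * (PP l * t0 / 2) ≤ 2 * ((X : ℝ) / w) * (PP l * t0 / 2) := h4
        _ = PP l * (4 * ((X : ℝ) / w) * t0) / 4 := by ring
        _ ≤ PP l * (PX X).card / 4 := by linarith
    linarith
  have hcnt : (cnt (fun s => (s : ℝ) < PP l * (PX X).card / 4) l (PX X) : ℝ) ≤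
      ∑ j ∈ (range J).filter (fun j => t0 ≤ ((W j).card : ℝ)),
        (cnt (fun s => (s : ℝ) < PP l * (W j).card / 2) l (W j) : ℝ) := by
    unfold cnt
    push_cast
    rw [sum_comm]
    refine sum_le_sum fun m _ => ?_
    split_ifs with hm
    · obtain ⟨j, hj, hj'⟩ := key m hm
      refine le_trans ?_ (single_le_sum (f := fun j =>
        if ((srv l m (W j)).card : ℝ) < PP l * (W j).card / 2 then (1 : ℝ) else 0)
        (fun j _ => by split_ifs <;> norm_num) hj)
      rw [if_pos hj']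
    · exact sum_nonneg fun j _ => by split_ifs <;> norm_num
  refine hcnt.trans ?_
  have hex : (0 : ℝ) ≤ (l.prod : ℝ) * Real.exp (-(PP l * t0 / 8)) := by positivity
  calc ∑ j ∈ (range J).filter (fun j => t0 ≤ ((W j).card : ℝ)),
        (cnt (fun s => (s : ℝ) < PP l * (W j).card / 2) l (W j) : ℝ)
      ≤ ∑ j ∈ (range J).filter (fun j => t0 ≤ ((W j).card : ℝ)),
        (l.prod : ℝ) * Real.exp (-(PP l * t0 / 8)) := by
        refine sum_le_sum fun j hj => ?_
        rw [mem_filter] at hj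
        refine (cnt_lower (fun q hq => (hl q hq).1) hcop ?_).trans ?_
        · intro q hq c
          refine filter_le_one (p := 1) (w := w) (Y := X + j * w) (L := w) (c := 0) ?_ one_pos
            (by rw [mul_one]) (hl q hq).2 (Nat.coprime_one_right q) c
          intro n hn
          rw [hW, mem_filter] at hn
          have h1 := Low_mem hn.1
          have h2 := Nat.div_add_mod (n - X - 1) w
          have h3 := Nat.mod_lt (n - X - 1) hw
          rw [hn.2] at h2
          have h4 : w * j = j * w := Nat.mul_comm _ _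
          exact ⟨one_dvd _, by omega, by omega⟩
        · refine mul_le_mul_of_nonneg_left (Real.exp_le_exp.2 ?_) (Nat.cast_nonneg _)
          have h1 := mul_le_mul_of_nonneg_left hj.2 hP.1
          linarith
    _ ≤ (J : ℝ) * ((l.prod : ℝ) * Real.exp (-(PP l * t0 / 8))) := by
        rw [sum_const, nsmul_eq_mul]
        refine mul_le_mul_of_nonneg_right ?_ hex
        have h1 := card_filter_le (range J) (fun j => t0 ≤ ((W j).card : ℝ))
        rw [card_range] at h1
        exact_mod_cast h1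
    _ ≤ 2 * ((X : ℝ) / w) * ((l.prod : ℝ) * Real.exp (-(PP l * t0 / 8))) :=
        mul_le_mul_of_nonneg_right hJr hex
    _ = l.prod * (2 * ((X : ℝ) / w) * Real.exp (-(PP l * t0 / 8))) := by ring

end Pool.MP42e49e.RS
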