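import Pool.Agent.H.MP_42e49e_nt.RS.NumA

/-!
# The parameters: the inequalities, third part
-/

set_option autoImplicit false

open Finset

namespace Pool.MP42e49e.RS

open Pool.MP42e49e.ER

variable {x w z X : ℕ} {L l k ρ : ℝ}

/-- primes up to `u` -/
private theorem NumD_cnt (h : Rs x w z X L l k ρ) (u : ℕ) (S : Finset ℕ)
    (hS : ∀ p ∈ S, p.Prime ∧ p ≤ u) :
    (S.card : ℝ) ≤ Real.exp (L / 2) + 4 * u / L := by
  classical
  obtain ⟨hl0, hL0, hlk, hLl, hx⟩ := h.basic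
  obtain ⟨s1, s2, s3, s4, s5⟩ := h.sizes
  have hk := h.hk1
  have hl1 : 1000 ≤ l := by nlinarith
  have hL1 : 1000 ≤ L := by nlinarith
  obtain ⟨P0, hP0⟩ : ∃ P0 : ℕ, P0 = ⌊Real.exp (L / 2)⌋₊ := ⟨_, rfl⟩
  have hE : 2 ≤ Real.exp (L / 2) := by
    have := Real.add_one_le_exp (L / 2)
    linarith
  have hPle : (P0 : ℝ) ≤ Real.exp (L / 2) := by
    rw [hP0]
    exact Nat.floor_le (Real.exp_pos _).le
  have hPge : Real.exp (L / 2) / 2 ≤ P0 := by
    have h1 := Nat.lt_floor_add_one (Real.exp (L / 2))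
    rw [← hP0] at h1
    linarith
  have hP1 : 1 ≤ P0 := by
    have : (0 : ℝ) < P0 := by linarith
    exact_mod_cast this
  have hlog : L / 2 - 1 ≤ Real.log P0 := by
    have h1 : Real.log (Real.exp (L / 2) / 2) ≤ Real.log P0 :=
      Real.log_le_log (by positivity) hPge
    rw [Real.log_div (Real.exp_pos _).ne' two_ne_zero, Real.log_exp] at h1
    have := Real.log_two_lt_d9
    linarith
  have h2 := R.card_pw_log P0 u hP1
  have h3 : ((pw P0 u).card : ℝ) ≤ 4 * u / L := by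
    rw [le_div_iff₀ hL0]
    have h4 : ((pw P0 u).card : ℝ) * (L / 2 - 1) ≤ u * (3 / 2) := by
      calc ((pw P0 u).card : ℝ) * (L / 2 - 1) ≤ (pw P0 u).card * Real.log P0 :=
            mul_le_mul_of_nonneg_left hlog (Nat.cast_nonneg _)
        _ ≤ u * Real.log 4 := h2
        _ ≤ u * (3 / 2) := mul_le_mul_of_nonneg_left R.log4_le (Nat.cast_nonneg _)
    have h5 : (0 : ℝ) ≤ (pw P0 u).card := Nat.cast_nonneg _
    nlinarith
  have h6 : S ⊆ Icc 1 P0 ∪ pw P0 u := by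
    intro p hp
    obtain ⟨h7, h8⟩ := hS p hp
    rw [mem_union, mem_Icc]
    rcases le_or_gt p P0 with h9 | h9
    · exact Or.inl ⟨h7.one_lt.le, h9⟩
    · exact Or.inr (mem_pw.2 ⟨h7, h9, h8⟩)
  have h7 := (card_le_card h6).trans (card_union_le _ _)
  rw [Nat.card_Icc] at h7
  have h8 : (S.card : ℝ) ≤ P0 + (pw P0 u).card := by
    have : S.card ≤ P0 + (pw P0 u).card := by omega
    exact_mod_cast this
  linarith

private theorem NumD_half (h : Rs x w z X L l k ρ) :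
    Real.exp (L / 2) ≤ x * Real.exp (-(k / 2)) / L := by
  obtain ⟨hl0, hL0, hlk, hLl, hx⟩ := h.basic
  obtain ⟨s1, s2, s3, s4, s5⟩ := h.sizes
  have hk := h.hk1
  have hl1 : 1000 ≤ l := by nlinarith
  rw [le_div_iff₀ hL0, hx]
  calc Real.exp (L / 2) * L = Real.exp (L / 2) * Real.exp l := by rw [← hLl]
    _ = Real.exp (L / 2 + l) := (Real.exp_add _ _).symm
    _ ≤ Real.exp (L + -(k / 2)) := by
        apply Real.exp_le_exp.2
        nlinarith
    _ = _ := Real.exp_add _ _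

/-- PROOF. `card_pw_log` of `R2Sum.lean` with `P0 = ⌊√x⌋₊` (or `⌊exp (L / 2)⌋₊`): the number of primes `≤ u` is at most `√x + u log 4 / log P0`, `log P0 ≥ L / 2 - 1`, `log 4 ≤ 3 / 2`,
`√x ≤ x exp (- k / 2) / L`. -/
theorem Rs.count (h : Rs x w z X L l k ρ) : ((pw z x).card : ℝ) ≤ 5 * x / L ∧
    (((pw z x).filter fun p : ℕ => p * Real.exp (k / 2) ≤ x).card : ℝ) ≤
      5 * (x * Real.exp (-(k / 2))) / L := by
  obtain ⟨hl0, hL0, hlk, hLl, hx⟩ := h.basic
  have hk := h.hk1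
  have h1 := NumD_half h
  have hx0 : (0 : ℝ) ≤ x := Nat.cast_nonneg _
  have h2 : x * Real.exp (-(k / 2)) / L ≤ x / L := by
    apply div_le_div_of_nonneg_right _ hL0.le
    have : Real.exp (-(k / 2)) ≤ 1 := Real.exp_le_one_iff.2 (by linarith)
    nlinarith
  constructor
  · have h3 := NumD_cnt h x (pw z x) (fun p hp => ⟨(mem_pw.1 hp).1, (mem_pw.1 hp).2.2⟩)
    have h4 : 5 * (x : ℝ) / L = x / L + 4 * x / L := by ring
    rw [h4]
    linarith
  · have h3 := NumD_cnt h ⌊x * Real.exp (-(k / 2))⌋₊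
      ((pw z x).filter fun p : ℕ => p * Real.exp (k / 2) ≤ x) (fun p hp => by
      rw [mem_filter] at hp
      obtain ⟨hp, hp2⟩ := hp
      refine ⟨(mem_pw.1 hp).1, Nat.le_floor ?_⟩
      calc (p : ℝ) = p * Real.exp (k / 2) * Real.exp (-(k / 2)) := by
            rw [mul_assoc, ← Real.exp_add, add_neg_cancel, Real.exp_zero, mul_one]
        _ ≤ x * Real.exp (-(k / 2)) := mul_le_mul_of_nonneg_right hp2 (Real.exp_pos _).le)
    have h5 : ((⌊x * Real.exp (-(k / 2))⌋₊ : ℕ) : ℝ) ≤ x * Real.exp (-(k / 2)) :=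
      Nat.floor_le (by positivity)
    have h6 : 4 * ((⌊x * Real.exp (-(k / 2))⌋₊ : ℕ) : ℝ) / L ≤
        4 * (x * Real.exp (-(k / 2))) / L := by
      apply div_le_div_of_nonneg_right _ hL0.le
      linarith
    have h4 : 5 * (x * Real.exp (-(k / 2))) / L =
        x * Real.exp (-(k / 2)) / L + 4 * (x * Real.exp (-(k / 2))) / L := by ring
    rw [h4]
    linarith

/-- PROOF. `∑_E tau ≤ (504 ρ X / l) ∑_E 1 / p + 9 L #{p : p exp (k / 2) ≤ x} + (40 L / k) #E ≤ 504 ρ X / (10 ^ 6 L) + 45 x exp (- k / 2) + 200 x / k` and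
`P |PX X| / 4 ≥ (ρ / 9) (X / (4 L)) / 4 = ρ X / (144 L)`, `ρ X / L ≥ 60000 x / k`; `exp (- k / 2) ≤ 1 / k / 100`. -/
theorem Rs.num_sum (h : Rs x w z X L l k ρ) {P : ℝ} (hP : ρ / 9 ≤ P) {E : Finset ℕ}
    (hE : E ⊆ pw z x) (hs : ∑ p ∈ E, 1 / (p : ℝ) ≤ l / (10 ^ 6 * L)) :
    ∑ p ∈ E, tau x X L l k ρ p < P * (PX X).card / 4 := by
  obtain ⟨hl0, hL0, hlk, hLl, hx⟩ := h.basic
  obtain ⟨s1, s2, s3, s4, s5⟩ := h.sizes
  obtain ⟨g1, g2, g3, g4, g5, hρ0, hρ1⟩ := h.logs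
  obtain ⟨c1, c2⟩ := h.count
  have hk := h.hk1
  have hk0 : 0 < k := by linarith
  have hx0 : (0 : ℝ) < x := by
    rw [hx]
    exact Real.exp_pos _
  have hX0 : (0 : ℝ) ≤ X := Nat.cast_nonneg _
  have hc := h.card_PX
  -- the main term
  have m1 : ∑ p ∈ E, 504 * (ρ * ((X : ℝ) / p)) / l ≤ 504 * ρ * X / (10 ^ 6 * L) := by
    have h1 : ∑ p ∈ E, 504 * (ρ * ((X : ℝ) / p)) / l = 504 * ρ * X / l * ∑ p ∈ E, 1 / (p : ℝ) := by
      rw [mul_sum]
      refine sum_congr rfl fun p _ => ?_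
      ring
    rw [h1]
    calc 504 * ρ * X / l * ∑ p ∈ E, 1 / (p : ℝ) ≤ 504 * ρ * X / l * (l / (10 ^ 6 * L)) :=
          mul_le_mul_of_nonneg_left hs (by positivity)
      _ = 504 * ρ * X / (10 ^ 6 * L) := by
          field_simp
  -- the rest
  have m2 : ∑ p ∈ E, (if (p : ℝ) * Real.exp (k / 2) ≤ x then 9 * L else 40 * L / k) ≤
      45 * (x * Real.exp (-(k / 2))) + 200 * x / k := by
    calc ∑ p ∈ E, (if (p : ℝ) * Real.exp (k / 2) ≤ x then 9 * L else 40 * L / k)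
        ≤ ∑ p ∈ E, ((if (p : ℝ) * Real.exp (k / 2) ≤ x then 9 * L else 0) + 40 * L / k) := by
          refine sum_le_sum fun p _ => ?_
          split_ifs
          · have : 0 ≤ 40 * L / k := by positivity
            linarith
          · linarith
      _ = (E.filter fun p : ℕ => (p : ℝ) * Real.exp (k / 2) ≤ x).card * (9 * L) +
          E.card * (40 * L / k) := by
          rw [sum_add_distrib, ← sum_filter, sum_const, sum_const, nsmul_eq_mul, nsmul_eq_mul]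
      _ ≤ 5 * (x * Real.exp (-(k / 2))) / L * (9 * L) + 5 * x / L * (40 * L / k) := by
          refine add_le_add (mul_le_mul_of_nonneg_right ?_ (by positivity))
            (mul_le_mul_of_nonneg_right ?_ (by positivity))
          · refine le_trans ?_ c2
            exact_mod_cast card_le_card (filter_subset_filter _ hE)
          · refine le_trans ?_ c1
            exact_mod_cast card_le_card hE
      _ = 45 * (x * Real.exp (-(k / 2))) + 200 * x / k := by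
          field_simp
          ring
  have m3 : ∑ p ∈ E, tau x X L l k ρ p ≤
      504 * ρ * X / (10 ^ 6 * L) + (45 * (x * Real.exp (-(k / 2))) + 200 * x / k) := by
    have h1 : ∑ p ∈ E, tau x X L l k ρ p = (∑ p ∈ E, 504 * (ρ * ((X : ℝ) / p)) / l) +
        ∑ p ∈ E, (if (p : ℝ) * Real.exp (k / 2) ≤ x then 9 * L else 40 * L / k) := by
      rw [← sum_add_distrib]
      rfl
    rw [h1]
    exact add_le_add m1 m2
  have m4 : Real.exp (-(k / 2)) ≤ 1 / k := by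
    rw [Real.exp_neg, ← one_div]
    apply one_div_le_one_div_of_le hk0
    nlinarith
  obtain ⟨Q, hQ⟩ : ∃ Q, Q = ρ * X / L := ⟨_, rfl⟩
  obtain ⟨R, hR⟩ : ∃ R, R = (x : ℝ) / k := ⟨_, rfl⟩
  have hR0 : 0 < R := by
    rw [hR]
    positivity
  have hQR : 60000 * R ≤ Q := by
    rw [hQ, hR, le_div_iff₀ hL0]
    have h1 := h.hX1
    rw [show 60000 * ((x : ℝ) / k) * L = 60000 * (x * L) / k by ring, div_le_iff₀ hk0]
    linarith
  have m5 : Q / 144 ≤ P * (PX X).card / 4 := by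
    have h1 : ρ / 9 * ((X : ℝ) / (4 * L)) ≤ P * (PX X).card :=
      mul_le_mul hP hc (by positivity) (by linarith [div_pos hρ0 (by norm_num : (0 : ℝ) < 9)])
    have h2 : ρ / 9 * ((X : ℝ) / (4 * L)) = Q / 36 := by
      rw [hQ]
      field_simp
      ring
    rw [h2] at h1
    linarith
  have m6 : 504 * ρ * X / (10 ^ 6 * L) = 504 * Q / 10 ^ 6 := by
    rw [hQ]
    field_simp
  have m7 : x * Real.exp (-(k / 2)) ≤ R := by
    rw [hR]
    calc x * Real.exp (-(k / 2)) ≤ x * (1 / k) := mul_le_mul_of_nonneg_left m4 hx0.le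
      _ = x / k := by ring
  have m8 : 200 * (x : ℝ) / k = 200 * R := by
    rw [hR]
    ring
  rw [m6, m8] at m3
  linarith

/-- PROOF. `exp (-(9 L)) = x ^ (-9)`. -/
theorem Rs.num_eps (h : Rs x w z X L l k ρ) {y : ℕ} (hy : y ≤ x ^ 3) :
    2 * ((y : ℝ) + 1) * ((1 + (x : ℝ) ^ 2) * ((x : ℝ) ^ 2 * Real.exp (-(9 * L)))) ≤ 1 / x := by
  obtain ⟨hl0, hL0, hlk, hLl, hx⟩ := h.basic
  obtain ⟨s1, s2, s3, s4, s5⟩ := h.sizes
  have hk := h.hk1
  have hl1 : 1000 ≤ l := by nlinarith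
  have hL1 : 1000 ≤ L := by nlinarith
  have hx8 : (8 : ℝ) ≤ x := by
    have h1 := Real.add_one_le_exp L
    rw [← hx] at h1
    linarith
  have hx0 : (0 : ℝ) < x := by linarith
  have he : Real.exp (-(9 * L)) = 1 / (x : ℝ) ^ 9 := by
    rw [hx, ← Real.exp_nat_mul, Real.exp_neg, one_div]
    norm_num
  have hy' : (y : ℝ) ≤ (x : ℝ) ^ 3 := by exact_mod_cast hy
  have hx1 : (1 : ℝ) ≤ x := by linarith
  have h3 : (1 : ℝ) ≤ (x : ℝ) ^ 3 := one_le_pow₀ hx1
  have h2 : (1 : ℝ) ≤ (x : ℝ) ^ 2 := one_le_pow₀ hx1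
  calc 2 * ((y : ℝ) + 1) * ((1 + (x : ℝ) ^ 2) * ((x : ℝ) ^ 2 * Real.exp (-(9 * L))))
      ≤ 2 * (2 * (x : ℝ) ^ 3) * ((2 * (x : ℝ) ^ 2) * ((x : ℝ) ^ 2 * (1 / (x : ℝ) ^ 9))) := by
        rw [he]
        gcongr
        · linarith
        · linarith
    _ = 8 / (x : ℝ) ^ 2 := by
        field_simp
        ring
    _ ≤ 1 / x := by
        rw [div_le_div_iff₀ (by positivity) hx0]
        nlinarith

end Pool.MP42e49e.RS
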