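import Pool.Agent.H.MP_42e49e_nt.RS.Prob
import Pool.Agent.H.MP_42e49e_nt.RS.NumD
import Pool.Agent.H.MP_42e49e_nt.RS.Cov
import Pool.Agent.H.MP_42e49e_nt.RS.Count
import Pool.Agent.H.MP_42e49e_nt.Tup

/-!
# The theorem
-/

set_option autoImplicit false

open Finset

namespace Pool.MP42e49e.RS

open Pool.MP42e49e.ER

variable {x w z X : ℕ} {L l k ρ : ℝ}

/-- The bad shifts. -/
theorem Rs.bad (h : Rs x w z X L l k ρ) [DecidablePred
    (Bad X x z (pw w z).toList (PP (pw w z).toList * (PX X).card / 4) (tau x X L l k ρ))] :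
    (((range (pw w z).toList.prod).filter
      (Bad X x z (pw w z).toList (PP (pw w z).toList * (PX X).card / 4) (tau x X L l k ρ))).card : ℝ) ≤
      (pw w z).toList.prod * ((1 + (x : ℝ) ^ 2) * ((x : ℝ) ^ 2 * Real.exp (-(9 * L)))) :=
  bad_card (by positivity) h.prob_low fun _ hp _ _ => h.prob_up hp

/-- The coverings of the theorem. -/
def Covb (x y w z b : ℕ) (κ : ℝ) (a : ℕ → ℤ) : Prop :=
  (∀ p : ℕ, p.Prime → p ≤ w → a p ≡ b [ZMOD (p : ℤ)]) ∧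
    ∑ p ∈ (pw z x).filter (fun p : ℕ => ¬ a p ≡ b [ZMOD (p : ℤ)]), 1 / (p : ℝ) ≤ κ ∧
    ∀ n : ℕ, 1 ≤ n → n ≤ y → ∃ p : ℕ, p.Prime ∧ p ≤ x ∧ (n : ℤ) ≡ a p [ZMOD (p : ℤ)]

theorem Rs.tuples (h : Rs x w z X L l k ρ) {y : ℕ} (hXy : 4 * X + 4 ≤ y) (hy : y ≤ x ^ 3)
    {Q : Finset ℕ} (hQ : Q = pw w z) :
    (({r : (p : ℕ) → p ∈ Q → ℕ | r ∈ Q.pi Finset.range ∧
      ∃ a : ℕ → ℤ, (∀ p (hp : p ∈ Q), a p = r p hp) ∧
        ∃ b ≤ y, Covb x y w z b (l / (10 ^ 6 * L)) a} : Set _).ncard : ℝ) ≤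
      1 / x * ∏ p ∈ Q, (p : ℝ) := by
  classical
  have hQp : ∀ p ∈ Q, p.Prime := fun p hp => by
    rw [hQ, mem_pw] at hp
    exact hp.1
  have hprod : (pw w z).toList.prod = ∏ p ∈ Q, p := by
    rw [hQ]
    rw [← Finset.prod_map_toList, List.map_id']
  have hM : 0 < ∏ p ∈ Q, p := prod_pos fun p hp => (hQp p hp).pos
  obtain ⟨P, hP⟩ : ∃ P : ℕ → Prop, P = Bad X x z (pw w z).toList
    (PP (pw w z).toList * (PX X).card / 4) (tau x X L l k ρ) := ⟨_, rfl⟩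
  choose f hf1 hf2 using fun b => exists_shift hQp b
  have h1 : ({r : (p : ℕ) → p ∈ Q → ℕ | r ∈ Q.pi Finset.range ∧
      ∃ a : ℕ → ℤ, (∀ p (hp : p ∈ Q), a p = r p hp) ∧
        ∃ b ≤ y, Covb x y w z b (l / (10 ^ 6 * L)) a} : Set _).ncard ≤
      ({m | m < ∏ p ∈ Q, p ∧ ∃ b, b ≤ y ∧ (P ((m + b) % ∏ p ∈ Q, p) ∨
        P ((((∏ p ∈ Q, p) - 1) * (m + b)) % ∏ p ∈ Q, p))} : Set ℕ).ncard := by
    refine Set.ncard_le_ncard_of_injOn f ?_ ?_ ((Set.finite_lt_nat _).subset fun m hm => hm.1)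
    · rintro r ⟨-, a, ha1, b, hb, ht, hs, hc⟩
      refine ⟨hf1 r, b, hb, ?_⟩
      rw [hP, ← hprod]
      refine cov_bad (fun q => mem_toList) (by rw [hprod]; exact hM) h.hzx h.XX.1 hXy hb ?_ ht hc
        (h.num_sum h.PPρ.1 (filter_subset _ _) hs)
      intro p hp
      rw [← hQ] at hp
      rw [ha1 p hp]
      exact hf2 r p hp
    · rintro r ⟨hr, -⟩ r' ⟨hr', -⟩ hrr
      funext p hp
      have h1 := hf2 r p hp
      have h2 := hf2 r' p hp
      have hbb' : f r = f r' := hrr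
      rw [hbb'] at h1
      have h3 : (p : ℤ) ∣ (r' p hp : ℤ) - r p hp := by
        have h4 := dvd_sub h2 h1
        have h5 : ((f r' : ℤ) + r' p hp) - ((f r' : ℤ) + r p hp) = (r' p hp : ℤ) - r p hp := by
          ring
        rwa [h5] at h4
      have h6 := Nat.modEq_iff_dvd.2 h3
      have h7 := mem_range.1 (mem_pi.1 hr p hp)
      have h8 := mem_range.1 (mem_pi.1 hr' p hp)
      exact Nat.ModEq.eq_of_lt_of_lt h6 h7 h8
  have h2 := shift_card (∏ p ∈ Q, p) y hM P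
  have h3 : (((range (∏ p ∈ Q, p)).filter P).card : ℝ) ≤
      (∏ p ∈ Q, (p : ℝ)) * ((1 + (x : ℝ) ^ 2) * ((x : ℝ) ^ 2 * Real.exp (-(9 * L)))) := by
    have h4 := h.bad
    rw [hprod] at h4
    rw [← Nat.cast_prod]
    subst hP
    convert h4
  have h5 := h.num_eps hy
  calc _ ≤ 2 * ((y : ℝ) + 1) * ((range (∏ p ∈ Q, p)).filter P).card := by
        refine le_trans ?_ h2
        exact_mod_cast h1
    _ ≤ 2 * ((y : ℝ) + 1) * ((∏ p ∈ Q, (p : ℝ)) *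
        ((1 + (x : ℝ) ^ 2) * ((x : ℝ) ^ 2 * Real.exp (-(9 * L))))) := by gcongr
    _ = (2 * ((y : ℝ) + 1) * ((1 + (x : ℝ) ^ 2) * ((x : ℝ) ^ 2 * Real.exp (-(9 * L))))) *
        ∏ p ∈ Q, (p : ℝ) := by ring
    _ ≤ _ := mul_le_mul_of_nonneg_right h5 (prod_nonneg fun _ _ => Nat.cast_nonneg _)

/-- **The random sieve.** -/
theorem main : ∃ x₀ : ℝ, ∀ x y w z : ℕ, x₀ ≤ x → Real.log x ^ 3 ≤ w → w ≤ z → z ≤ x →
    10 ^ 6 * (x * Real.log x * Real.log z /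
      (Real.log w * Real.log (Real.log (Real.log x)))) ≤ y → y ≤ x ^ 3 →
    ∀ Q : Finset ℕ, (∀ p, p ∈ Q ↔ p.Prime ∧ w < p ∧ p ≤ z) →
      (({r : (p : ℕ) → p ∈ Q → ℕ | r ∈ Q.pi Finset.range ∧
        ∃ a : ℕ → ℤ, (∀ p (hp : p ∈ Q), a p = r p hp) ∧
          ∃ b ≤ y, Covb x y w z b (Real.log (Real.log x) / (10 ^ 6 * Real.log x)) a} :
        Set _).ncard : ℝ) ≤ 1 / x * ∏ p ∈ Q, (p : ℝ) := by
  obtain ⟨X0, hX0⟩ := thetaX
  have tL : Filter.Tendsto (fun x : ℕ => Real.log (x : ℝ)) Filter.atTop Filter.atTop :=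
    Real.tendsto_log_atTop.comp tendsto_natCast_atTop_atTop
  have tl : Filter.Tendsto (fun x : ℕ => Real.log (Real.log (x : ℝ))) Filter.atTop Filter.atTop :=
    Real.tendsto_log_atTop.comp tL
  have tk : Filter.Tendsto (fun x : ℕ => Real.log (Real.log (Real.log (x : ℝ))))
      Filter.atTop Filter.atTop := Real.tendsto_log_atTop.comp tl
  obtain ⟨N, hN⟩ := Filter.eventually_atTop.1 (((tk.eventually_ge_atTop 1000).and
    ((tl.eventually_ge_atTop 2).and (tL.eventually_ge_atTop 2))).and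
    (Filter.eventually_ge_atTop (max X0 1)))
  refine ⟨N, ?_⟩
  intro x y w z hx hw hwz hzx hy hy3 Q hQ
  obtain ⟨⟨hk1, hl2, hL2⟩, hx1⟩ := hN x (by exact_mod_cast hx)
  obtain ⟨L, hL⟩ : ∃ L : ℝ, L = Real.log x := ⟨_, rfl⟩
  rw [← hL] at hk1 hl2 hL2 hw hy ⊢
  obtain ⟨l, hl⟩ : ∃ l : ℝ, l = Real.log L := ⟨_, rfl⟩
  rw [← hl] at hk1 hl2 hy ⊢
  obtain ⟨k, hk⟩ : ∃ k : ℝ, k = Real.log l := ⟨_, rfl⟩
  rw [← hk] at hk1 hy
  have hx1' : (1 : ℝ) ≤ x := by exact_mod_cast le_trans (le_max_right X0 1) hx1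
  have hxX0 : X0 ≤ x := le_trans (le_max_left X0 1) hx1
  have hw1 : (1 : ℝ) < w := by nlinarith [pow_le_pow_left₀ (by norm_num : (0:ℝ) ≤ 2) hL2 3]
  have hz1 : (w : ℝ) ≤ z := by exact_mod_cast hwz
  have hlw : 0 < Real.log w := Real.log_pos hw1
  have hlz : Real.log w ≤ Real.log z := Real.log_le_log (by linarith) hz1
  have hlz0 : 0 < Real.log z := by linarith
  obtain ⟨ρ, hρ⟩ : ∃ ρ : ℝ, ρ = Real.log w / Real.log z := ⟨_, rfl⟩
  have hρ0 : 0 < ρ := by rw [hρ]; positivity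
  have hρ1 : ρ ≤ 1 := by rw [hρ]; exact (div_le_one hlz0).2 hlz
  have hk0 : 0 < k := by linarith
  have hkl : k ≤ l := by
    rw [hk]
    have := Real.log_le_sub_one_of_pos (show 0 < l by linarith)
    linarith
  have hlL : l ≤ L := by
    rw [hl]
    have := Real.log_le_sub_one_of_pos (show 0 < L by linarith)
    linarith
  obtain ⟨D, hD⟩ : ∃ D : ℝ, D = x * L / (ρ * k) := ⟨_, rfl⟩
  have hDe : D * (ρ * k) = x * L := by
    rw [hD]
    field_simp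
  have hDy : x * L * Real.log z / (Real.log w * k) = D := by
    rw [hD, hρ]
    field_simp
  have hDx : (x : ℝ) ≤ D := by
    rw [hD, le_div_iff₀ (by positivity)]
    have h1 : ρ * k ≤ 1 * L := mul_le_mul hρ1 (hkl.trans hlL) hk0.le zero_le_one
    nlinarith
  rw [hDy] at hy
  obtain ⟨X, hX⟩ : ∃ X : ℕ, X = ⌊120000 * D⌋₊ := ⟨_, rfl⟩
  have hXle : (X : ℝ) ≤ 120000 * D := by
    rw [hX]
    exact Nat.floor_le (by linarith)
  have hXge : 60000 * D ≤ X := by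
    have := Nat.lt_floor_add_one (120000 * D)
    rw [← hX] at this
    linarith
  have hxX : (x : ℝ) ≤ X := by linarith
  have hreg : Rs x w z X L l k ρ :=
    { hL := hL
      hl := hl
      hk := hk
      hρ := hρ
      hw := hw
      hwz := hwz
      hzx := hzx
      hk1 := hk1
      hX1 := by
        rw [← hDe]
        have := mul_le_mul_of_nonneg_right hXge (show 0 ≤ ρ * k by positivity)
        linarith
      hX2 := by
        rw [← hDe]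
        have := mul_le_mul_of_nonneg_right hXle (show 0 ≤ ρ * k by positivity)
        linarith
      hT := (hX0 X (hxX0.trans (by exact_mod_cast hxX))).1 }
  have hXy : 4 * X + 4 ≤ y := by
    have h1 : (4 * (X : ℝ) + 4) ≤ y := by linarith
    exact_mod_cast h1
  refine hreg.tuples hXy hy3 ?_
  ext p
  rw [hQ, mem_pw]

end Pool.MP42e49e.RS
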