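import Pool.Agent.H.MP_42e49e_nt.RS.Defs

/-!
# The parameters: sizes
-/

set_option autoImplicit false

open Finset

namespace Pool.MP42e49e.RS

open Pool.MP42e49e.ER

variable {x w z X : ℕ} {L l k ρ : ℝ}

private theorem numA_pow (t : ℝ) (ht : 1000 ≤ t) : 10 ^ 9 * t ^ 4 ≤ Real.exp t := by
  have h1 : t / 16 ≤ Real.exp (t / 16) := (le_add_of_nonneg_right zero_le_one).trans
    (Real.add_one_le_exp _)
  have h2 : (t / 16) ^ 16 ≤ Real.exp (t / 16) ^ 16 :=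
    pow_le_pow_left₀ (by positivity) h1 _
  have h3 : Real.exp (t / 16) ^ 16 = Real.exp t := by
    rw [← Real.exp_nat_mul]
    congr 1
    push_cast
    ring
  rw [h3] at h2
  refine le_trans ?_ h2
  have h4 : (1000 : ℝ) ^ 12 ≤ t ^ 12 := pow_le_pow_left₀ (by norm_num) ht _
  have h5 : (t / 16) ^ 16 = t ^ 12 / 16 ^ 16 * t ^ 4 := by ring
  rw [h5]
  refine mul_le_mul_of_nonneg_right ?_ (by positivity)
  rw [le_div_iff₀ (by norm_num)]
  refine le_trans ?_ h4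
  norm_num

private theorem numA_half (t : ℝ) (ht : 1000 ≤ t) : 10 ^ 9 * t ≤ Real.exp (t / 2) := by
  have h1 : t / 16 ≤ Real.exp (t / 16) := (le_add_of_nonneg_right zero_le_one).trans
    (Real.add_one_le_exp _)
  have h2 : (t / 16) ^ 8 ≤ Real.exp (t / 16) ^ 8 :=
    pow_le_pow_left₀ (by positivity) h1 _
  have h3 : Real.exp (t / 16) ^ 8 = Real.exp (t / 2) := by
    rw [← Real.exp_nat_mul]
    congr 1
    push_cast
    ring
  rw [h3] at h2
  refine le_trans ?_ h2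
  have h4 : (1000 : ℝ) ^ 7 ≤ t ^ 7 := pow_le_pow_left₀ (by norm_num) ht _
  have h5 : (t / 16) ^ 8 = t ^ 7 / 16 ^ 8 * t := by ring
  rw [h5]
  refine mul_le_mul_of_nonneg_right ?_ (by positivity)
  rw [le_div_iff₀ (by norm_num)]
  refine le_trans ?_ h4
  norm_num

private theorem numA_quarter (t : ℝ) (ht : 1000 ≤ t) : 10 ^ 9 ≤ Real.exp (t / 4) := by
  have h1 : t / 32 + 1 ≤ Real.exp (t / 32) := Real.add_one_le_exp _
  have h2 : (32 : ℝ) ^ 8 ≤ Real.exp (t / 32) ^ 8 :=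
    pow_le_pow_left₀ (by norm_num) (by linarith) _
  have h3 : Real.exp (t / 32) ^ 8 = Real.exp (t / 4) := by
    rw [← Real.exp_nat_mul]
    congr 1
    push_cast
    ring
  rw [h3] at h2
  refine le_trans ?_ h2
  norm_num

/-- PROOF. `l = exp k` and `L = exp l` (as `log l = k ≥ 1000 > 0` forces `l > 0`: `Real.log` of a nonpositive real is `log |l|`, so show first `L > 0`: `x ≥ z ≥ w ≥ L ^ 3`,
`L = log x ≥ 0` for natural `x`; `l = log L`, `log l = k`; if `l ≤ 0` then `L ≤ 1`... use that `L ^ 3 ≤ w ≤ x` and `L = log x`: if `L = 0` then `l = 0` and `k = 0`, no;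
`0 < L < 1`: then `1 < x < e`, `x = 2`, `L = log 2`, `l = log log 2 ∈ (-1, 0)`, `k = log |l| < 0`, no; so `L ≥ 1`, `l ≥ 0`, and `l ≠ 0` as `k ≠ 0`.) -/
theorem Rs.basic (h : Rs x w z X L l k ρ) : 0 < l ∧ 0 < L ∧ l = Real.exp k ∧ L = Real.exp l ∧
    (x : ℝ) = Real.exp L := by
  have hk1 := h.hk1
  have hk0 : 0 < k := by linarith
  have hx2 : 2 ≤ x := by
    by_contra hc
    have hx : x = 0 ∨ x = 1 := by omega
    have hL0 : L = 0 := by
      rw [h.hL]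
      rcases hx with hx | hx
      · rw [hx]; simp
      · rw [hx]; simp
    have hl0 : l = 0 := by rw [h.hl, hL0, Real.log_zero]
    have hk0' : k = 0 := by rw [h.hk, hl0, Real.log_zero]
    linarith
  have hx2' : (2 : ℝ) ≤ x := by exact_mod_cast hx2
  have hL1 : Real.log 2 ≤ L := by
    rw [h.hL]
    exact Real.log_le_log (by norm_num) hx2'
  have hlog2 := Real.log_two_gt_d9
  have hL0 : 0 < L := by linarith
  have hl0 : 0 < l := by
    by_contra hc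
    rw [not_lt] at hc
    have h1 : 1 - L⁻¹ ≤ l := by
      rw [h.hl]
      exact Real.one_sub_inv_le_log_of_pos hL0
    have h2 : L⁻¹ ≤ 2 := by
      rw [inv_le_comm₀ hL0 (by norm_num)]
      linarith
    have h3 : |l| ≤ 1 := abs_le.2 ⟨by linarith, by linarith⟩
    have h4 : Real.log |l| ≤ 0 := Real.log_nonpos (abs_nonneg _) h3
    rw [Real.log_abs, ← h.hk] at h4
    linarith
  refine ⟨hl0, hL0, ?_, ?_, ?_⟩
  · rw [h.hk, Real.exp_log hl0]
  · rw [h.hl, Real.exp_log hL0]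
  · rw [h.hL, Real.exp_log (by linarith)]

/-- PROOF. `exp k ≥ k ^ 4 / 24 ≥ ...` (`Real.pow_div_factorial_le_exp` or `Real.quadratic_le_exp_of_nonneg` repeatedly: `exp k = (exp (k / 8)) ^ 8`, `exp (k / 8) ≥ 1 + k / 8`), `k ≥ 1000`;
`exp (k / 4) ≥ 10 ^ 9`, `exp (k / 2) ≥ 10 ^ 9 * k`, `l ≥ 10 ^ 9 * k ^ 2`, `L ≥ 10 ^ 9 * l ^ 2`. -/
theorem Rs.sizes (h : Rs x w z X L l k ρ) : 10 ^ 9 ≤ Real.exp (k / 4) ∧
    10 ^ 9 * k ≤ Real.exp (k / 2) ∧ 10 ^ 9 * k ^ 2 ≤ l ∧ 10 ^ 9 * l ^ 2 ≤ L ∧ 10 ^ 9 * L ^ 4 ≤ x := by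
  obtain ⟨hl0, hL0, h1, h2, h3⟩ := h.basic
  have hk1 := h.hk1
  have hl4 : 10 ^ 9 * k ^ 4 ≤ l := by
    rw [h1]
    exact numA_pow k hk1
  have hk2 : k ^ 2 ≤ k ^ 4 := pow_le_pow_right₀ (by linarith) (by norm_num)
  have hk4 : (1 : ℝ) ≤ k ^ 4 := one_le_pow₀ (by linarith)
  have hl1 : 1000 ≤ l := by linarith
  have hL4 : 10 ^ 9 * l ^ 4 ≤ L := by
    rw [h2]
    exact numA_pow l hl1
  have hl2 : l ^ 2 ≤ l ^ 4 := pow_le_pow_right₀ (by linarith) (by norm_num)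
  have hl4' : (1 : ℝ) ≤ l ^ 4 := one_le_pow₀ (by linarith)
  have hL1 : 1000 ≤ L := by linarith
  refine ⟨numA_quarter k hk1, numA_half k hk1, by linarith, by linarith, ?_⟩
  rw [h3]
  exact numA_pow L hL1

/-- PROOF. `log w ≥ log (L ^ 3) = 3 l`; `log w ≤ log z ≤ log x = L`; `ρ * log z = log w`. -/
theorem Rs.logs (h : Rs x w z X L l k ρ) : 3 * l ≤ Real.log w ∧ Real.log w ≤ Real.log z ∧
    Real.log z ≤ L ∧ ρ * Real.log z = Real.log w ∧ 3 * l ≤ ρ * L ∧ 0 < ρ ∧ ρ ≤ 1 := by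
  obtain ⟨hl0, hL0, h1, h2, h3⟩ := h.basic
  have hL3 : 0 < L ^ 3 := by positivity
  have hw0 : (0 : ℝ) < w := lt_of_lt_of_le hL3 h.hw
  have hwz : (w : ℝ) ≤ z := by exact_mod_cast h.hwz
  have hzx : (z : ℝ) ≤ x := by exact_mod_cast h.hzx
  have h4 : 3 * l ≤ Real.log w := by
    have h5 := Real.log_le_log hL3 h.hw
    rw [Real.log_pow, ← h.hl] at h5
    push_cast at h5
    exact h5
  have h5 : Real.log w ≤ Real.log z := Real.log_le_log hw0 hwz
  have h6 : Real.log z ≤ L := by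
    rw [h.hL]
    exact Real.log_le_log (lt_of_lt_of_le hw0 hwz) hzx
  have h7 : 0 < Real.log w := by linarith
  have h8 : 0 < Real.log z := by linarith
  have h9 : ρ * Real.log z = Real.log w := by
    rw [h.hρ, div_mul_cancel₀ _ h8.ne']
  have h10 : 0 < ρ := by
    rw [h.hρ]
    exact div_pos h7 h8
  have h11 : ρ ≤ 1 := by
    rw [h.hρ, div_le_one h8]
    exact h5
  refine ⟨h4, h5, h6, h9, ?_, h10, h11⟩
  have h12 := mul_le_mul_of_nonneg_left h6 h10.le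
  linarith

/-- PROOF. `X ≥ X ρ ≥ 60000 x L / k ≥ x`, and `log (X / x) ≥ log (L / k) = l - log k ≥ l / 2`; `X ρ k ≤ 120000 x L` and `ρ ≥ 3 l / L` give `X ≤ 40000 x L ^ 2 / (l k) ≤ x L ^ 2 / 2`;
`2 X ≤ x L ^ 2 ≤ x ^ 2`, `log (2 X) ≤ L + 2 l ≤ 2 L`. -/
theorem Rs.XX (h : Rs x w z X L l k ρ) : x ≤ X ∧ l / 2 ≤ Real.log ((X : ℝ) / x) ∧
    2 * (X : ℝ) ≤ x * L ^ 2 ∧ 2 * (X : ℝ) ≤ (x : ℝ) ^ 2 ∧ Real.log (2 * X) ≤ 2 * L := by
  obtain ⟨hl0, hL0, h1, h2, h3⟩ := h.basic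
  obtain ⟨_, _, h5, h6, h7⟩ := h.sizes
  obtain ⟨h8, h9, h10, h11, h12, h13, h14⟩ := h.logs
  have hk1 := h.hk1
  have hk0 : 0 < k := by linarith
  have hx0 : (0 : ℝ) < x := by rw [h3]; exact Real.exp_pos _
  have hX0 : (0 : ℝ) ≤ X := Nat.cast_nonneg _
  have hkk : k ≤ k ^ 2 := by nlinarith
  have hkl : 10 ^ 9 * k ≤ l := by linarith
  have hll : l ≤ l ^ 2 := by nlinarith
  have hlL : 10 ^ 9 * l ≤ L := by linarith
  have hkL : k ≤ L := by linarith
  -- `X k ≥ 60000 x L`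
  have hXk : 60000 * (x * L) ≤ X * k := by
    refine h.hX1.trans ?_
    refine mul_le_mul_of_nonneg_left ?_ hX0
    nlinarith
  have hxL : (x : ℝ) * k ≤ x * L := mul_le_mul_of_nonneg_left hkL hx0.le
  have hxX : (x : ℝ) ≤ X := by
    by_contra hc
    rw [not_le] at hc
    have := mul_lt_mul_of_pos_right hc hk0
    have h15 : 0 < (x : ℝ) * L := by positivity
    linarith
  have hX1 : (0 : ℝ) < X := lt_of_lt_of_le hx0 hxX
  -- the logarithm of the quotient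
  have hq : L / k ≤ X / x := by
    rw [div_le_div_iff₀ hk0 hx0]
    have h15 : 0 < (x : ℝ) * L := by positivity
    linarith
  have hlq : l / 2 ≤ Real.log ((X : ℝ) / x) := by
    have h15 := Real.log_le_log (by positivity) hq
    rw [Real.log_div hL0.ne' hk0.ne', ← h.hl] at h15
    have h16 := Real.log_le_sub_one_of_pos hk0
    linarith
  -- the upper bound
  have hXlk : X * (l * k) ≤ 40000 * (x * L ^ 2) := by
    have h15 : X * (3 * l * k) ≤ X * (ρ * L * k) :=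
      mul_le_mul_of_nonneg_left (mul_le_mul_of_nonneg_right h12 hk0.le) hX0
    have h16 := mul_le_mul_of_nonneg_right h.hX2 hL0.le
    have h17 : X * (ρ * L * k) = X * (ρ * k) * L := by ring
    have h18 : 120000 * (x * L) * L = 3 * (40000 * (x * L ^ 2)) := by ring
    have h19 : X * (3 * l * k) = 3 * (X * (l * k)) := by ring
    linarith
  have hX2 : 2 * (X : ℝ) ≤ x * L ^ 2 := by
    have h15 : (80000 : ℝ) ≤ l * k := by nlinarith
    have h16 := mul_le_mul_of_nonneg_left h15 hX0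
    linarith
  have hLx : L ^ 2 ≤ x := by
    have h15 : L ^ 2 ≤ L ^ 4 := pow_le_pow_right₀ (by linarith) (by norm_num)
    have h16 : 0 ≤ L ^ 4 := by positivity
    linarith
  refine ⟨by exact_mod_cast hxX, hlq, hX2, ?_, ?_⟩
  · refine hX2.trans ?_
    rw [pow_two (x : ℝ)]
    exact mul_le_mul_of_nonneg_left hLx hx0.le
  · have h15 := Real.log_le_log (by positivity) hX2
    rw [Real.log_mul hx0.ne' (by positivity), Real.log_pow, ← h.hL, ← h.hl] at h15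
    push_cast at h15
    linarith

private theorem numA_mem {q : ℕ} (hq : q ∈ PX X) : q ≤ 2 * X := by
  unfold PX Pool.Agent.H.MP_711652_nt.CH.clp at hq
  rw [mem_filter, mem_filter, mem_Ioc] at hq
  exact hq.1.1.2

/-- PROOF. `X / 2 ≤ ∑_{q ∈ PX X} thn q ≤ |PX X| log (2 X) ≤ |PX X| 2 L`. -/
theorem Rs.card_PX (h : Rs x w z X L l k ρ) : (X : ℝ) / (4 * L) ≤ (PX X).card := by
  obtain ⟨hl0, hL0, h1, h2, h3⟩ := h.basic
  obtain ⟨h4, _, _, _, h8⟩ := h.XX
  have hx0 : (0 : ℝ) < x := by rw [h3]; exact Real.exp_pos _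
  have h5 : ∀ q ∈ PX X, Pool.Agent.H.MP_711652_nt.CH.thn q ≤ 2 * L := by
    intro q hq
    refine le_trans ?_ h8
    unfold Pool.Agent.H.MP_711652_nt.CH.thn
    have hq2 : q ≤ 2 * X := numA_mem hq
    have hX1 : 1 ≤ X := by
      have : 0 < x := by exact_mod_cast hx0
      omega
    split_ifs with hp
    · have h9 : (q : ℝ) ≤ 2 * X := by exact_mod_cast hq2
      exact Real.log_le_log (by exact_mod_cast hp.pos) h9
    · refine Real.log_nonneg ?_
      have : (1 : ℝ) ≤ X := by exact_mod_cast hX1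
      linarith
  have h6 := h.hT.trans (sum_le_sum h5)
  rw [sum_const, nsmul_eq_mul] at h6
  rw [div_le_iff₀ (by positivity)]
  linarith

end Pool.MP42e49e.RS
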