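import Pool.Agent.H.MP_42e49e_nt.RS.NumA

/-!
# The parameters: the inequalities, first part
-/

set_option autoImplicit false

open Finset

namespace Pool.MP42e49e.RS

open Pool.MP42e49e.ER

variable {x w z X : ℕ} {L l k ρ : ℝ}

/-- PROOF. `t0 = |PX X| w / (4 X) ≥ w / (16 L)`, `P ≥ ρ / 9`, `ρ ≥ 3 l / L`, `w ≥ L ^ 3`: `P t0 / 8 ≥ 3 l L / 1152 ≥ 9 L`. -/
theorem Rs.num_low (h : Rs x w z X L l k ρ) {P : ℝ} (hP : ρ / 9 ≤ P) :
    9 * L ≤ P * ((PX X).card * w / (4 * X)) / 8 := by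
  obtain ⟨hl, hL, -, -, hx⟩ := h.basic
  obtain ⟨-, -, hs3, hs4, -⟩ := h.sizes
  obtain ⟨-, -, -, -, hlρ, -, -⟩ := h.logs
  obtain ⟨hxX, -, -, -, -⟩ := h.XX
  have hc := h.card_PX
  have hk := h.hk1
  have hx0 : (0 : ℝ) < x := by
    rw [hx]
    exact Real.exp_pos L
  have hX0 : (0 : ℝ) < X := hx0.trans_le (by exact_mod_cast hxX)
  have hl1 : 3456 ≤ l := by
    have h1 : (1 : ℝ) ≤ k ^ 2 := one_le_pow₀ (by linarith)
    linarith
  have hw := h.hw
  have ht : L ^ 2 / 16 ≤ (PX X).card * w / (4 * X) := by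
    rw [le_div_iff₀ (by positivity)]
    have h1 : (X : ℝ) / (4 * L) * L ^ 3 ≤ (PX X).card * w :=
      mul_le_mul hc hw (by positivity) (by positivity)
    have h2 : (X : ℝ) / (4 * L) * L ^ 3 = L ^ 2 / 16 * (4 * X) := by
      field_simp
      norm_num
    linarith
  have hP1 : l / (3 * L) ≤ P := by
    refine le_trans ?_ hP
    rw [div_le_div_iff₀ (by positivity) (by norm_num)]
    linarith
  have h3 : l / (3 * L) * (L ^ 2 / 16) ≤ P * ((PX X).card * w / (4 * X)) :=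
    mul_le_mul hP1 ht (by positivity) ((by positivity : 0 ≤ l / (3 * L)).trans hP1)
  have h4 : l / (3 * L) * (L ^ 2 / 16) = l * L / 48 := by
    field_simp
    ring
  have h5 : 3456 * L ≤ l * L := mul_le_mul_of_nonneg_right hl1 hL.le
  linarith

/-- PROOF. `P ≤ 3 ρ`, `log (X / p) ≥ log (X / x) ≥ l / 2`: `2 P (42 (X / p) / log (X / p)) ≤ 504 ρ (X / p) / l`. -/
theorem Rs.num_A (h : Rs x w z X L l k ρ) {P : ℝ} (hP0 : 0 ≤ P) (hP : P ≤ 3 * ρ) {p : ℕ}
    (hp : 0 < p) (hpx : p ≤ x) :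
    2 * P * (42 * ((X : ℝ) / p) / Real.log ((X : ℝ) / p)) ≤ 504 * (ρ * (X / p)) / l := by
  obtain ⟨hl, hL, -, -, hx⟩ := h.basic
  obtain ⟨hxX, hlog, -, -, -⟩ := h.XX
  have hx0 : (0 : ℝ) < x := by
    rw [hx]
    exact Real.exp_pos L
  have hX0 : (0 : ℝ) < X := hx0.trans_le (by exact_mod_cast hxX)
  have hp0 : (0 : ℝ) < p := by exact_mod_cast hp
  have hpx' : (p : ℝ) ≤ x := by exact_mod_cast hpx
  have h1 : l / 2 ≤ Real.log ((X : ℝ) / p) :=
    hlog.trans (Real.log_le_log (by positivity) (div_le_div_of_nonneg_left hX0.le hp0 hpx'))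
  have h2 : 42 * ((X : ℝ) / p) / Real.log ((X : ℝ) / p) ≤ 42 * ((X : ℝ) / p) / (l / 2) :=
    div_le_div_of_nonneg_left (by positivity) (by positivity) h1
  have h3 : 2 * P * (42 * ((X : ℝ) / p) / Real.log ((X : ℝ) / p)) ≤
      2 * (3 * ρ) * (42 * ((X : ℝ) / p) / (l / 2)) := by
    refine mul_le_mul (by linarith) h2 ?_ (by linarith)
    have h4 : 0 < Real.log ((X : ℝ) / p) := lt_of_lt_of_le (by positivity) h1
    positivity
  refine h3.trans (le_of_eq ?_)
  field_simp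
  ring

/-- PROOF. With `τ' = 252 w / log z + 9 L`: `2 P (42 w / log w) ≤ 252 ρ w / log w = 252 w / log z`; and `2 (X / (w p)) τ' ≤ 504 (X / p) / log z + 18 L (X / p) / w`, where
`1 / log z = ρ / log w ≤ ρ / (3 l)` and `L / w ≤ 1 / L ^ 2 ≤ ρ / (3 l L)` (`ρ L ≥ 3 l`). -/
theorem Rs.num_B (h : Rs x w z X L l k ρ) {P : ℝ} (hP0 : 0 ≤ P) (hP : P ≤ 3 * ρ) {p : ℕ}
    (hp : 0 < p) :
    2 * P * (42 * (w : ℝ) / Real.log w) - (252 * (w : ℝ) / Real.log z + 9 * L) ≤ -(9 * L) ∧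
    2 * ((X : ℝ) / (w * p)) * (252 * (w : ℝ) / Real.log z + 9 * L) ≤ 504 * (ρ * (X / p)) / l := by
  obtain ⟨hl, hL, -, -, hx⟩ := h.basic
  obtain ⟨-, -, -, hs4, -⟩ := h.sizes
  obtain ⟨hw1, hw2, -, hρw, hlρ, hρ0, -⟩ := h.logs
  obtain ⟨hxX, -, -, -, -⟩ := h.XX
  have hx0 : (0 : ℝ) < x := by
    rw [hx]
    exact Real.exp_pos L
  have hX0 : (0 : ℝ) < X := hx0.trans_le (by exact_mod_cast hxX)
  have hp0 : (0 : ℝ) < p := by exact_mod_cast hp
  have hlw : 0 < Real.log w := by linarith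
  have hlz : 0 < Real.log z := by linarith
  have hw0 : (0 : ℝ) < w := (by positivity : 0 < L ^ 3).trans_le h.hw
  have hz : (1 : ℝ) / Real.log z = ρ / Real.log w := by
    rw [← hρw]
    field_simp
  constructor
  · have h1 : 2 * P * (42 * (w : ℝ) / Real.log w) ≤ 2 * (3 * ρ) * (42 * (w : ℝ) / Real.log w) :=
      mul_le_mul_of_nonneg_right (by linarith) (by positivity)
    have h2 : 2 * (3 * ρ) * (42 * (w : ℝ) / Real.log w) = 252 * (w : ℝ) / Real.log z := by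
      rw [show 252 * (w : ℝ) / Real.log z = 252 * (w : ℝ) * (1 / Real.log z) by ring, hz]
      ring
    linarith
  · have h1 : (1 : ℝ) / Real.log z ≤ ρ / (3 * l) := by
      rw [hz]
      exact div_le_div_of_nonneg_left hρ0.le (by positivity) hw1
    have h2 : L / (w : ℝ) ≤ ρ / (3 * l) := by
      rw [div_le_div_iff₀ hw0 (by positivity)]
      have h3 : L ^ 3 * ρ ≤ ρ * w := by
        rw [mul_comm]
        exact mul_le_mul_of_nonneg_left h.hw hρ0.le
      have h4 : L ^ 2 * (3 * l) ≤ L ^ 2 * (ρ * L) := mul_le_mul_of_nonneg_left hlρ (by positivity)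
      have h5 : L * (3 * l) ≤ L ^ 2 * (3 * l) := by
        refine mul_le_mul_of_nonneg_right ?_ (by positivity)
        have hL1 : 1 ≤ L := by
          have hl1 : (1 : ℝ) ≤ l ∨ l < 1 := le_or_gt 1 l
          have hs3 := h.sizes.2.2.1
          have hk := h.hk1
          have hk2 : (1 : ℝ) ≤ k ^ 2 := one_le_pow₀ (by linarith)
          have hl2 : 1 ≤ l := by linarith
          have hl3 : (1 : ℝ) ≤ l ^ 2 := one_le_pow₀ hl2
          linarith
        calc L = L * 1 := (mul_one L).symm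
          _ ≤ L * L := mul_le_mul_of_nonneg_left hL1 hL.le
          _ = L ^ 2 := (sq L).symm
      have h6 : L ^ 2 * (ρ * L) = L ^ 3 * ρ := by ring
      linarith
    have h3 : 2 * ((X : ℝ) / (w * p)) * (252 * (w : ℝ) / Real.log z + 9 * L) =
        ((X : ℝ) / p) * (504 * (1 / Real.log z) + 18 * (L / w)) := by
      field_simp
      ring
    rw [h3]
    have h4 : 504 * (1 / Real.log z) + 18 * (L / w) ≤ 504 * (ρ / (3 * l)) + 18 * (ρ / (3 * l)) := by
      linarith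
    have h5 : 504 * (ρ / (3 * l)) + 18 * (ρ / (3 * l)) ≤ 504 * (ρ / l) := by
      have h6 : ρ / (3 * l) = ρ / l / 3 := by
        field_simp
      have h7 : 0 ≤ ρ / l := by positivity
      rw [h6]
      linarith
    calc ((X : ℝ) / p) * (504 * (1 / Real.log z) + 18 * (L / w))
        ≤ ((X : ℝ) / p) * (504 * (ρ / l)) :=
          mul_le_mul_of_nonneg_left (h4.trans h5) (by positivity)
      _ = 504 * (ρ * (X / p)) / l := by ring

end Pool.MP42e49e.RS
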