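import Pool.Agent.H.MP_42e49e_nt.RS.NumA

/-!
# The parameters: the inequalities, second part
-/

set_option autoImplicit false

open Finset

namespace Pool.MP42e49e.RS

open Pool.MP42e49e.ER

variable {x w z X : ℕ} {L l k ρ : ℝ}

/-- PROOF. For `x < p exp (k / 2)`: `X / p < (X / x) exp (k / 2) ≤ 120000 L exp (k / 2) / (ρ k) ≤ 40000 L ^ 2 exp (k / 2) / (l k) ≤ L ^ 3 ≤ w` (`exp (k / 2) ≤ l`). -/
theorem Rs.num_Cw (h : Rs x w z X L l k ρ) {p : ℕ} (hp : (x : ℝ) < p * Real.exp (k / 2)) :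
    X ≤ w * p := by
  obtain ⟨hl0, hL0, hlk, hLl, hxL⟩ := h.basic
  obtain ⟨hs1, hs2, hs3, hs4, hs5⟩ := h.sizes
  obtain ⟨hg1, hg2, hg3, hg4, hg5, hg6, hg7⟩ := h.logs
  have hk := h.hk1
  have hX2 := h.hX2
  have hw := h.hw
  set E := Real.exp (k / 2) with hE
  have hlE : l = E ^ 2 := by
    rw [hlk, hE, ← Real.exp_nat_mul]
    congr 1
    push_cast
    ring
  have hE0 : 0 < E := Real.exp_pos _
  have hX0 : (0 : ℝ) ≤ X := Nat.cast_nonneg X
  have hp0 : (0 : ℝ) ≤ p := Nat.cast_nonneg p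
  have hk0 : 0 < k := by linarith
  -- `3 X E ^ 2 k ≤ 120000 p E L ^ 2`
  have h1 : (X : ℝ) * (3 * l) * k ≤ X * (ρ * L) * k := by
    apply mul_le_mul_of_nonneg_right _ hk0.le
    exact mul_le_mul_of_nonneg_left hg5 hX0
  have h2 : (X : ℝ) * (ρ * L) * k ≤ 120000 * (x * L) * L := by
    have := mul_le_mul_of_nonneg_right hX2 hL0.le
    calc (X : ℝ) * (ρ * L) * k = X * (ρ * k) * L := by ring
      _ ≤ _ := this
  have h3 : 120000 * ((x : ℝ) * L) * L ≤ 120000 * (p * E * L) * L := by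
    have : (x : ℝ) * L ≤ p * E * L := mul_le_mul_of_nonneg_right hp.le hL0.le
    have := mul_le_mul_of_nonneg_left this (by norm_num : (0 : ℝ) ≤ 120000)
    exact mul_le_mul_of_nonneg_right this hL0.le
  have h4 : E * (3 * ((X : ℝ) * (E * k))) ≤ E * (3 * (40000 * (p * L ^ 2))) := by
    have := (h1.trans h2).trans h3
    rw [hlE] at this
    calc E * (3 * ((X : ℝ) * (E * k))) = X * (3 * E ^ 2) * k := by ring
      _ ≤ 120000 * (p * E * L) * L := this
      _ = _ := by ring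
  have h5 : (X : ℝ) * (E * k) ≤ 40000 * (p * L ^ 2) := by
    have := le_of_mul_le_mul_left h4 hE0
    linarith
  have h6 : (40000 : ℝ) ≤ E * k := by nlinarith
  have h7 : (X : ℝ) * 40000 ≤ 40000 * (p * L ^ 2) :=
    (mul_le_mul_of_nonneg_left h6 hX0).trans h5
  have h8 : (X : ℝ) ≤ p * L ^ 2 := by linarith
  have hL1 : 1 ≤ L := by nlinarith
  have h9 : (p : ℝ) * L ^ 2 ≤ p * L ^ 3 := by
    apply mul_le_mul_of_nonneg_left _ hp0
    exact pow_le_pow_right₀ hL1 (by norm_num)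
  have h10 : (X : ℝ) ≤ w * p := by
    calc (X : ℝ) ≤ p * L ^ 3 := h8.trans h9
      _ ≤ p * w := mul_le_mul_of_nonneg_left hw hp0
      _ = w * p := by ring
  exact_mod_cast h10

/-- PROOF. For `x < p exp (k / 2)`, `B = exp (k / 4)`: `(B - 1) P (42 (X / p) / log (X / p)) ≤ 252 exp (k / 4) ρ (X / p) / l` and `ρ (X / p) ≤ 120000 L exp (k / 2) / k`,
so it is at most `30240000 L exp (3 k / 4) / (k l) = 30240000 L exp (- k / 4) / k ≤ L`; and `τ log B ≥ (40 L / k) (k / 4) = 10 L`. -/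
theorem Rs.num_C (h : Rs x w z X L l k ρ) {P τ : ℝ} (hP0 : 0 ≤ P) (hP : P ≤ 3 * ρ) {p : ℕ}
    (hpx : p ≤ x) (hp : (x : ℝ) < p * Real.exp (k / 2)) (hτ : 40 * L / k ≤ τ) :
    (Real.exp (k / 4) - 1) * P * (42 * ((X : ℝ) / p) / Real.log ((X : ℝ) / p)) -
      τ * Real.log (Real.exp (k / 4)) ≤ -(9 * L) := by
  obtain ⟨hl0, hL0, hlk, hLl, hxL⟩ := h.basic
  obtain ⟨hs1, hs2, hs3, hs4, hs5⟩ := h.sizes
  obtain ⟨hg1, hg2, hg3, hg4, hg5, hg6, hg7⟩ := h.logs
  obtain ⟨hx1, hx2, hx3, hx4, hx5⟩ := h.XX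
  have hk := h.hk1
  have hX2 := h.hX2
  set B := Real.exp (k / 4) with hB
  have hlB : l = B ^ 4 := by
    rw [hlk, hB, ← Real.exp_nat_mul]
    congr 1
    push_cast
    ring
  have hEB : Real.exp (k / 2) = B ^ 2 := by
    rw [hB, ← Real.exp_nat_mul]
    congr 1
    push_cast
    ring
  rw [hEB] at hp
  have hB0 : 0 < B := Real.exp_pos _
  have hk0 : 0 < k := by linarith
  have hx0 : (0 : ℝ) < x := by rw [hxL]; exact Real.exp_pos _
  have hp0 : (0 : ℝ) < p := by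
    rcases Nat.eq_zero_or_pos p with h0 | h0
    · rw [h0] at hp
      simp at hp
      linarith
    · exact_mod_cast h0
  have hX0 : (0 : ℝ) < X := lt_of_lt_of_le hx0 (by exact_mod_cast hx1)
  have hpx' : (p : ℝ) ≤ x := by exact_mod_cast hpx
  -- the logarithm
  have hlog : l / 2 ≤ Real.log ((X : ℝ) / p) := by
    refine hx2.trans (Real.log_le_log (by positivity) ?_)
    exact div_le_div_of_nonneg_left hX0.le hp0 hpx'
  have hl2 : 0 < l / 2 := by positivity
  have hlog0 : 0 < Real.log ((X : ℝ) / p) := lt_of_lt_of_le hl2 hlog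
  -- `ρ (X / p) k ≤ 120000 B ^ 2 L`
  have h1 : ρ * ((X : ℝ) / p) * k ≤ 120000 * (B ^ 2 * L) := by
    have h2 : (X : ℝ) * (ρ * k) ≤ 120000 * (p * B ^ 2 * L) := by
      refine hX2.trans ?_
      have : (x : ℝ) * L ≤ p * B ^ 2 * L := mul_le_mul_of_nonneg_right hp.le hL0.le
      linarith
    have h3 : ρ * ((X : ℝ) / p) * k = X * (ρ * k) / p := by ring
    rw [h3, div_le_iff₀ hp0]
    calc (X : ℝ) * (ρ * k) ≤ 120000 * (p * B ^ 2 * L) := h2
      _ = _ := by ring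
  -- the main term
  have hm : (B - 1) * P * (42 * ((X : ℝ) / p) / Real.log ((X : ℝ) / p)) ≤ L := by
    have hXp : 0 ≤ (X : ℝ) / p := by positivity
    have e1 : 42 * ((X : ℝ) / p) / Real.log ((X : ℝ) / p) ≤ 42 * ((X : ℝ) / p) / (l / 2) :=
      div_le_div_of_nonneg_left (by positivity) hl2 hlog
    have e2 : (B - 1) * P ≤ B * (3 * ρ) :=
      mul_le_mul (by linarith) hP hP0 hB0.le
    have e3 : (B - 1) * P * (42 * ((X : ℝ) / p) / Real.log ((X : ℝ) / p))
        ≤ B * (3 * ρ) * (42 * ((X : ℝ) / p) / (l / 2)) :=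
      mul_le_mul e2 e1 (by positivity) (by positivity)
    refine e3.trans ?_
    have e4 : B * (3 * ρ) * (42 * ((X : ℝ) / p) / (l / 2))
        = 252 * B * (ρ * ((X : ℝ) / p) * k) / (l * k) := by
      field_simp
      ring
    rw [e4, div_le_iff₀ (by positivity)]
    have e5 : 252 * B * (ρ * ((X : ℝ) / p) * k) ≤ 252 * B * (120000 * (B ^ 2 * L)) :=
      mul_le_mul_of_nonneg_left h1 (by positivity)
    refine e5.trans ?_
    have e6 : (30240000 : ℝ) ≤ B * k := by nlinarith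
    have e7 : L * (B ^ 3 * 30240000) ≤ L * (B ^ 3 * (B * k)) := by
      apply mul_le_mul_of_nonneg_left _ hL0.le
      exact mul_le_mul_of_nonneg_left e6 (by positivity)
    calc 252 * B * (120000 * (B ^ 2 * L)) = L * (B ^ 3 * 30240000) := by ring
      _ ≤ L * (B ^ 3 * (B * k)) := e7
      _ = L * (l * k) := by rw [hlB]; ring
  -- the second term
  have ht : 10 * L ≤ τ * Real.log B := by
    rw [hB, Real.log_exp]
    have : 40 * L / k * (k / 4) ≤ τ * (k / 4) := mul_le_mul_of_nonneg_right hτ (by positivity)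
    have e : 40 * L / k * (k / 4) = 10 * L := by
      field_simp
      ring
    linarith
  linarith

end Pool.MP42e49e.RS
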