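import Pool.Agent.H.MP_42e49e_nt.RS.NumA

/-!
# The parameters: the product
-/

set_option autoImplicit false

open Finset

namespace Pool.MP42e49e.RS

open Pool.MP42e49e.ER

variable {x w z X : ℕ} {L l k ρ : ℝ}

/-- PROOF. `PP_ge`, `PP_le`, `window` of `Mer.lean` (`v = w`, `x = z`; `sum_pw`, `rs_toList`), `rs2_le` (`rs2 ≤ rs / w ≤ 1 / 2`), `12 / log w ≤ 1 / 10`: `PP = exp (- log log z + log log w + O(1))`,
and `exp (log log w - log log z) = ρ`; `exp 1 ≤ 3`, `exp 2 ≤ 9`. -/
theorem Rs.PPρ (h : Rs x w z X L l k ρ) :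
    ρ / 9 ≤ PP (pw w z).toList ∧ PP (pw w z).toList ≤ 3 * ρ := by
  obtain ⟨hl0, hL0, hle, hLe, hxe⟩ := h.basic
  obtain ⟨-, -, hs3, hs4, -⟩ := h.sizes
  obtain ⟨hw3, hwz, hzL, hρz, -, hρ0, hρ1⟩ := h.logs
  have hk := h.hk1
  have hl1 : (1000 : ℝ) ≤ l := by nlinarith
  have hL1 : l ≤ L := by nlinarith
  have hL2 : (2 : ℝ) ≤ L := by linarith
  have hLw : L ≤ w := by
    refine le_trans ?_ h.hw
    have : (1 : ℝ) ≤ L ^ 2 := by nlinarith
    nlinarith
  have hw2 : (2 : ℝ) ≤ w := hL2.trans hLw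
  have hw2' : 2 ≤ w := by exact_mod_cast hw2
  have hlw : 3000 ≤ Real.log w := by linarith
  have hlz : 3000 ≤ Real.log z := hlw.trans hwz
  obtain ⟨m1, m2⟩ := window hw2' h.hwz
  have e12 : 12 / Real.log w ≤ 1 / 10 := by
    rw [div_le_iff₀ (by linarith)]
    linarith
  have hrs : rs (pw w z).toList = FF z - FF w := by
    rw [rs_toList, sum_pw h.hwz]
  have hpr : ∀ q ∈ (pw w z).toList, q.Prime ∧ w < q ∧ q ≤ z := fun q hq =>
    mem_pw.1 (mem_toList.1 hq)
  have hE : Real.exp (Real.log (Real.log w) - Real.log (Real.log z)) = ρ := by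
    rw [Real.exp_sub, Real.exp_log (by linarith), Real.exp_log (by linarith), ← hρz]
    rw [mul_div_assoc, div_self (by linarith), mul_one]
  have hll1 : Real.log (Real.log z) ≤ l := by
    rw [h.hl]
    exact Real.log_le_log (by linarith) hzL
  have hll2 : 0 ≤ Real.log (Real.log w) := Real.log_nonneg (by linarith)
  have hrsl : rs (pw w z).toList ≤ l + 1 / 10 := by
    rw [hrs]
    linarith
  have hrs2 : rs2 (pw w z).toList ≤ 1 / 2 := by
    have h1 := rs2_le (w := (w : ℝ)) (by linarith) (pw w z).toList (fun q hq => by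
      have := (hpr q hq).2.1
      exact_mod_cast this)
    refine h1.trans ?_
    rw [div_le_iff₀ (by linarith)]
    have h2 : 10 * l ≤ L := by nlinarith
    linarith
  have hP1 := PP_ge (pw w z).toList fun q hq => (hpr q hq).1.two_le
  have hP2 := PP_le (pw w z).toList fun q hq => (hpr q hq).1.two_le
  have hx1 : Real.exp 1 ≤ 3 := by
    have := Real.exp_one_lt_d9
    linarith
  constructor
  · refine le_trans ?_ hP1
    have h1 : Real.log (Real.log w) - Real.log (Real.log z) + -1 ≤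
        -(rs (pw w z).toList + rs2 (pw w z).toList) := by
      rw [hrs]
      linarith
    refine le_trans ?_ (Real.exp_le_exp.2 h1)
    rw [Real.exp_add, hE, div_eq_mul_inv]
    refine mul_le_mul_of_nonneg_left ?_ hρ0.le
    rw [Real.exp_neg]
    exact inv_anti₀ (Real.exp_pos _) (by linarith)
  · refine hP2.trans ?_
    have h1 : -(rs (pw w z).toList) ≤ Real.log (Real.log w) - Real.log (Real.log z) + 1 := by
      rw [hrs]
      linarith
    refine (Real.exp_le_exp.2 h1).trans ?_
    rw [Real.exp_add, hE, mul_comm]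
    exact mul_le_mul_of_nonneg_right hx1 hρ0.le

end Pool.MP42e49e.RS
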