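import Pool.Agent.H.MP_42e49e_nt.RS.Key
import Pool.Agent.H.MP_42e49e_nt.RS.Dist

/-!
# Many survivors in a class are rare
-/

set_option autoImplicit false

open Finset

namespace Pool.MP42e49e.RS

open Pool.MP42e49e.ER

private theorem Up_mem {X p c q : ℕ} (h : q ∈ Tc X p c) :
    q ∈ PX X ∧ p ∣ c + q ∧ X < q ∧ q ≤ X + X := by
  unfold Tc at h
  rw [mem_filter] at h
  obtain ⟨h1, h2⟩ := h
  have h3 := h1
  unfold PX Pool.Agent.H.MP_711652_nt.CH.clp at h3
  rw [mem_filter, mem_filter, mem_Ioc] at h3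
  exact ⟨h1, h2, h3.1.1.1, by omega⟩

/-- the size of `exp t` -/
private theorem Up_floor {t u : ℝ} {w : ℕ} (hu : 0 < u) (ht : 14 * t = Real.log u) (h0 : 0 ≤ t)
    (huw : u ≤ w) : ⌊Real.exp t⌋₊ ≤ w := by
  have h1 : Real.exp t ≤ u := by
    rw [← Real.exp_log hu, ← ht]
    exact Real.exp_le_exp.2 (by linarith)
  exact Nat.floor_le_of_le (h1.trans huw)

/-- PROOF. `cnt_upper` with `T = Tc X p c`, `N = 42 * (X / p) / log (X / p)`. `|Tc X p c| ≤ N`: `bt` with `Y = X`, `L = X`, `t = log (X / p) / 14` (`exp t ≤ X / p ≤ w < p ≤ X`; note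
`Tc X p c` is the filtered set of `bt` as all elements of `PX X` are in `(X, 2 X]`). At most one element in a class modulo `q`: `filter_le_one` with `Y = X`, `L = X`. -/
theorem up_A {X p c w : ℕ} {l : List ℕ} {B τ : ℝ} (hp : p.Prime)
    (hl : ∀ q ∈ l, 2 ≤ q ∧ w < q ∧ Nat.Coprime q p) (hcop : l.Pairwise Nat.Coprime)
    (hXw : X ≤ w * p) (hwp : w < p) (hpX : p ≤ X) (h14 : 14 ≤ Real.log ((X : ℝ) / p))
    (hB : 1 ≤ B) :
    (cnt (fun s => τ < (s : ℝ)) l (Tc X p c) : ℝ) ≤ l.prod *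
      Real.exp ((B - 1) * PP l * (42 * ((X : ℝ) / p) / Real.log ((X : ℝ) / p)) -
        τ * Real.log B) := by
  have hp0 : (0 : ℝ) < p := by exact_mod_cast hp.pos
  have hX0 : 0 < X := lt_of_lt_of_le hp.pos hpX
  have hX0' : (0 : ℝ) < X := by exact_mod_cast hX0
  have hu : 0 < (X : ℝ) / p := by positivity
  have huw : (X : ℝ) / p ≤ w := by
    rw [div_le_iff₀ hp0]
    exact_mod_cast hXw
  have hfl : ⌊Real.exp (Real.log ((X : ℝ) / p) / 14)⌋₊ ≤ w :=
    Up_floor hu (by ring) (by linarith) huw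
  have hcard : ((Tc X p c).card : ℝ) ≤ 42 * ((X : ℝ) / p) / Real.log ((X : ℝ) / p) := by
    have h1 := bt (X := X) (Y := X) (L := X) (p := p) (c := c)
      (t := Real.log ((X : ℝ) / p) / 14) hp hX0 le_rfl (by linarith) (by linarith)
      (by omega) (by omega)
    have h2 : (Tc X p c).card ≤ ((PX X).filter fun q => p ∣ c + q ∧ X < q ∧ q ≤ X + X).card := by
      refine card_le_card fun q hq => ?_
      have h3 := Up_mem hq
      exact mem_filter.2 ⟨h3.1, h3.2⟩
    have h4 : (3 * ((X : ℝ) / p / (Real.log ((X : ℝ) / p) / 14)) : ℝ) =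
        42 * ((X : ℝ) / p) / Real.log ((X : ℝ) / p) := by
      have h5 : Real.log ((X : ℝ) / p) ≠ 0 := by linarith
      field_simp
      ring
    rw [← h4]
    exact le_trans (by exact_mod_cast h2) h1
  exact cnt_upper hB (fun q hq => (hl q hq).1) hcop hcard fun q hq c' =>
    filter_le_one (Y := X) (L := X) (fun n hn => (Up_mem hn).2) hp.pos hXw (hl q hq).2.1
      (hl q hq).2.2 c'

/-- the windows -/
private def Up_W (X p c w j : ℕ) : Finset ℕ :=
  (Tc X p c).filter fun q => X + j * (w * p) < q ∧ q ≤ X + j * (w * p) + w * p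

private theorem Up_sum {X p c w : ℕ} (hwp : 0 < w * p) (l : List ℕ) (v : ℕ) :
    (srv l v (Tc X p c)).card ≤
      ∑ j ∈ range (X / (w * p) + 1), (srv l v (Up_W X p c w j)).card := by
  refine le_trans (card_le_card ?_) card_biUnion_le
  intro q hq
  rw [mem_biUnion]
  have h1 : q ∈ Tc X p c ∧ ∀ r ∈ l, ¬ r ∣ v + q := by
    unfold srv at hq
    exact mem_filter.1 hq
  have h2 := Up_mem h1.1
  have h3 := Nat.div_add_mod (q - X - 1) (w * p)
  have h4 := Nat.mod_lt (q - X - 1) hwp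
  have h5 : (q - X - 1) / (w * p) ≤ X / (w * p) := Nat.div_le_div_right (by omega)
  refine ⟨(q - X - 1) / (w * p), mem_range.2 (by omega), ?_⟩
  unfold srv
  refine mem_filter.2 ⟨?_, h1.2⟩
  unfold Up_W
  rw [Nat.mul_comm (w * p)] at h3
  refine mem_filter.2 ⟨h1.1, ?_, ?_⟩
  · omega
  · omega

/-- PROOF. Windows `W j = (Tc X p c).filter (X + j w p < q ∧ q ≤ X + (j + 1) w p)`, `j < J`, `J = X / (w p) + 1 ≤ 2 X / (w p)`. If `|srv l v (Tc X p c)| > (2 X / (w p)) τ` then
`|srv l v (W j)| > τ` for some `j < J` (`τ ≥ 0`). For each `j`: `cnt_upper` with `B = exp 1`, `N = 42 w / log w`, `(exp 1 - 1) ≤ 2`, `log B = 1`;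
`|W j| ≤ N` by `bt` with `Y = X + j w p`, `L = w p`, `t = log w / 14`, `L / p = w` (`exp t ≤ w < p ≤ X`); `filter_le_one` with `L = w p`. -/
theorem up_B {X p c w : ℕ} {l : List ℕ} {τ : ℝ} (hp : p.Prime)
    (hl : ∀ q ∈ l, 2 ≤ q ∧ w < q ∧ Nat.Coprime q p) (hcop : l.Pairwise Nat.Coprime)
    (hXw : w * p ≤ X) (hwp : w < p) (h14 : 14 ≤ Real.log (w : ℝ)) (hτ : 0 ≤ τ) :
    (cnt (fun s => 2 * ((X : ℝ) / (w * p)) * τ < (s : ℝ)) l (Tc X p c) : ℝ) ≤
      l.prod * (2 * ((X : ℝ) / (w * p)) *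
        Real.exp (2 * PP l * (42 * (w : ℝ) / Real.log w) - τ)) := by
  have hw0 : 0 < w := by
    rcases Nat.eq_zero_or_pos w with h | h
    · rw [h, Nat.cast_zero, Real.log_zero] at h14
      linarith
    · exact h
  have hw0' : (0 : ℝ) < w := by exact_mod_cast hw0
  have hp0 : (0 : ℝ) < p := by exact_mod_cast hp.pos
  have hwp0 : 0 < w * p := Nat.mul_pos hw0 hp.pos
  have hwp0' : (0 : ℝ) < (w : ℝ) * p := by positivity
  have hwX : w ≤ X := le_trans (Nat.le_mul_of_pos_right w hp.pos) hXw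
  have hfl : ⌊Real.exp (Real.log (w : ℝ) / 14)⌋₊ ≤ w :=
    Up_floor hw0' (by ring) (by linarith) le_rfl
  have hdiv : ((w * p : ℕ) : ℝ) / p = w := by
    push_cast
    field_simp
  -- each window
  have hwin : ∀ j, (cnt (fun s => τ < (s : ℝ)) l (Up_W X p c w j) : ℝ) ≤
      l.prod * Real.exp (2 * PP l * (42 * (w : ℝ) / Real.log w) - τ) := by
    intro j
    have hcard : ((Up_W X p c w j).card : ℝ) ≤ 42 * (w : ℝ) / Real.log w := by
      have h1 := bt (X := X) (Y := X + j * (w * p)) (L := w * p) (p := p) (c := c)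
        (t := Real.log (w : ℝ) / 14) hp hwp0 (Nat.le_add_right _ _) (by linarith)
        (by rw [hdiv]; linarith) (by omega) (by omega)
      have h2 : (Up_W X p c w j).card ≤ ((PX X).filter fun q => p ∣ c + q ∧
          X + j * (w * p) < q ∧ q ≤ X + j * (w * p) + w * p).card := by
        refine card_le_card fun q hq => ?_
        unfold Up_W at hq
        have h3 := mem_filter.1 hq
        have h4 := Up_mem h3.1
        exact mem_filter.2 ⟨h4.1, h4.2.1, h3.2⟩
      have h4 : (3 * (((w * p : ℕ) : ℝ) / p / (Real.log (w : ℝ) / 14)) : ℝ) =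
          42 * (w : ℝ) / Real.log w := by
        rw [hdiv]
        have h5 : Real.log (w : ℝ) ≠ 0 := by linarith
        field_simp
        ring
      rw [← h4]
      exact le_trans (by exact_mod_cast h2) h1
    have h5 := cnt_upper (B := Real.exp 1) (τ := τ) (Real.one_le_exp zero_le_one)
      (fun q hq => (hl q hq).1) hcop hcard fun q hq c' =>
      filter_le_one (Y := X + j * (w * p)) (L := w * p) (fun n hn => by
        unfold Up_W at hn
        have h3 := mem_filter.1 hn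
        exact ⟨(Up_mem h3.1).2.1, h3.2⟩) hp.pos le_rfl (hl q hq).2.1 (hl q hq).2.2 c'
    refine h5.trans (mul_le_mul_of_nonneg_left (Real.exp_le_exp.2 ?_) (Nat.cast_nonneg _))
    rw [Real.log_exp, mul_one]
    have h6 : Real.exp 1 - 1 ≤ 2 := by
      have := Real.exp_one_lt_d9
      linarith
    have h7 : 0 ≤ PP l := (PP_bound l fun q hq => by have := (hl q hq).1; omega).1
    have h8 : 0 ≤ 42 * (w : ℝ) / Real.log w := by
      have : 0 < Real.log (w : ℝ) := by linarith
      positivity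
    have h9 : (Real.exp 1 - 1) * PP l * (42 * (w : ℝ) / Real.log w) ≤
        2 * PP l * (42 * (w : ℝ) / Real.log w) := by gcongr
    linarith
  -- the number of windows
  have hJ : ((X / (w * p) + 1 : ℕ) : ℝ) ≤ 2 * ((X : ℝ) / (w * p)) := by
    have h1 : ((X / (w * p) : ℕ) : ℝ) ≤ (X : ℝ) / (w * p) := by
      have := @Nat.cast_div_le ℝ _ _ _ X (w * p)
      push_cast at this
      exact this
    have h2 : 1 ≤ (X : ℝ) / (w * p) := by
      rw [one_le_div hwp0']
      exact_mod_cast hXw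
    push_cast
    linarith
  have hcnt : cnt (fun s => 2 * ((X : ℝ) / (w * p)) * τ < (s : ℝ)) l (Tc X p c) ≤
      ∑ j ∈ range (X / (w * p) + 1), cnt (fun s => τ < (s : ℝ)) l (Up_W X p c w j) := by
    unfold cnt
    rw [sum_comm]
    refine sum_le_sum fun v _ => ?_
    split_ifs with hv
    · have h1 : ∃ j ∈ range (X / (w * p) + 1), τ < ((srv l v (Up_W X p c w j)).card : ℝ) := by
        by_contra hc
        push Not at hc
        have h2 : ((srv l v (Tc X p c)).card : ℝ) ≤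
            ∑ j ∈ range (X / (w * p) + 1), ((srv l v (Up_W X p c w j)).card : ℝ) := by
          exact_mod_cast Up_sum hwp0 l v
        have h3 : ∑ j ∈ range (X / (w * p) + 1), ((srv l v (Up_W X p c w j)).card : ℝ) ≤
            ((X / (w * p) + 1 : ℕ) : ℝ) * τ := by
          calc _ ≤ ∑ _j ∈ range (X / (w * p) + 1), τ := sum_le_sum hc
            _ = _ := by rw [sum_const, card_range, nsmul_eq_mul]
        have h4 : ((X / (w * p) + 1 : ℕ) : ℝ) * τ ≤ 2 * ((X : ℝ) / (w * p)) * τ :=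
          mul_le_mul_of_nonneg_right hJ hτ
        linarith
      obtain ⟨j, hj, hjv⟩ := h1
      refine le_trans ?_ (single_le_sum (f := fun j =>
        if τ < ((srv l v (Up_W X p c w j)).card : ℝ) then 1 else 0) (fun _ _ => Nat.zero_le _) hj)
      rw [if_pos hjv]
    · exact Nat.zero_le _
  calc (cnt (fun s => 2 * ((X : ℝ) / (w * p)) * τ < (s : ℝ)) l (Tc X p c) : ℝ)
      ≤ ∑ j ∈ range (X / (w * p) + 1), (cnt (fun s => τ < (s : ℝ)) l (Up_W X p c w j) : ℝ) := by
        exact_mod_cast hcnt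
    _ ≤ ∑ _j ∈ range (X / (w * p) + 1), (l.prod : ℝ) *
        Real.exp (2 * PP l * (42 * (w : ℝ) / Real.log w) - τ) := sum_le_sum fun j _ => hwin j
    _ = ((X / (w * p) + 1 : ℕ) : ℝ) * ((l.prod : ℝ) *
        Real.exp (2 * PP l * (42 * (w : ℝ) / Real.log w) - τ)) := by
        rw [sum_const, card_range, nsmul_eq_mul]
    _ ≤ (2 * ((X : ℝ) / (w * p))) * ((l.prod : ℝ) *
        Real.exp (2 * PP l * (42 * (w : ℝ) / Real.log w) - τ)) :=
        mul_le_mul_of_nonneg_right hJ (by positivity)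
    _ = _ := by ring

end Pool.MP42e49e.RS
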