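import Pool.Agent.H.MP_42e49e_nt.RS.NumB
import Pool.Agent.H.MP_42e49e_nt.RS.NumC
import Pool.Agent.H.MP_42e49e_nt.RS.NumP
import Pool.Agent.H.MP_42e49e_nt.RS.Low
import Pool.Agent.H.MP_42e49e_nt.RS.Up

/-!
# The two events are rare
-/

set_option autoImplicit false

open Finset

namespace Pool.MP42e49e.RS

open Pool.MP42e49e.ER

variable {x w z X : ℕ} {L l k ρ : ℝ}

private theorem Prob_mono {a b : ℝ} (hab : a ≤ b) (l : List ℕ) (T : Finset ℕ) :
    cnt (fun s => b < (s : ℝ)) l T ≤ cnt (fun s => a < (s : ℝ)) l T := by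
  unfold cnt
  refine sum_le_sum fun m _ => ?_
  by_cases h : b < ((srv l m T).card : ℝ)
  · rw [if_pos h, if_pos (hab.trans_lt h)]
  · rw [if_neg h]
    exact Nat.zero_le _

private theorem Prob_mem {q : ℕ} (hq : q ∈ (pw w z).toList) : q.Prime ∧ w < q ∧ q ≤ z := by
  rw [mem_toList, mem_pw] at hq
  exact hq

private theorem Prob_cop : (pw w z).toList.Pairwise Nat.Coprime :=
  pairwise_toList fun _ hp => (mem_pw.1 hp).1

private theorem Rs.Prob_basic (h : Rs x w z X L l k ρ) : 1 ≤ w ∧ w ≤ X ∧ 0 < X ∧ 14 ≤ l / 2 ∧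
    1 ≤ (x : ℝ) ^ 2 := by
  obtain ⟨hl0, hL0, -, -, -⟩ := h.basic
  obtain ⟨-, -, s3, -, s5⟩ := h.sizes
  have hk := h.hk1
  have hw : 1 ≤ w := by
    have h1 : (0 : ℝ) < w := lt_of_lt_of_le (by positivity) h.hw
    exact_mod_cast h1
  have hwX : w ≤ X := h.hwz.trans (h.hzx.trans h.XX.1)
  have hx : 1 ≤ x := hw.trans (h.hwz.trans h.hzx)
  have hx' : (1 : ℝ) ≤ x := by exact_mod_cast hx
  refine ⟨hw, hwX, hw.trans hwX, ?_, one_le_pow₀ hx'⟩
  nlinarith

/-- PROOF. `low` with `t0 = |PX X| w / (4 X)`, `num_low`, `2 X / w ≤ 2 X ≤ x ^ 2`. -/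
theorem Rs.prob_low (h : Rs x w z X L l k ρ) :
    (cnt (fun s => (s : ℝ) < PP (pw w z).toList * (PX X).card / 4) (pw w z).toList (PX X) : ℝ) ≤
      (pw w z).toList.prod * ((x : ℝ) ^ 2 * Real.exp (-(9 * L))) := by
  obtain ⟨hw, hwX, hX, -, -⟩ := h.Prob_basic
  have hw' : (1 : ℝ) ≤ w := by exact_mod_cast hw
  have hX' : (0 : ℝ) < X := by exact_mod_cast hX
  have hw0 : (0 : ℝ) < w := by linarith
  have h1 := low (X := X) (w := w) (l := (pw w z).toList)
    (t0 := (PX X).card * w / (4 * X)) hw hwX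
    (fun q hq => ⟨(Prob_mem hq).1.two_le, (Prob_mem hq).2.1⟩) Prob_cop (by positivity)
    (le_of_eq (by field_simp))
  refine h1.trans (mul_le_mul_of_nonneg_left ?_ (Nat.cast_nonneg _))
  have h2 := h.num_low h.PPρ.1
  have h3 : 2 * ((X : ℝ) / w) ≤ (x : ℝ) ^ 2 := by
    have h4 : (X : ℝ) / w ≤ X := div_le_self hX'.le hw'
    linarith [h.XX.2.2.2.1]
  refine mul_le_mul h3 (Real.exp_le_exp.2 ?_) (Real.exp_pos _).le (by positivity)
  linarith

/-- PROOF. If `p exp (k / 2) ≤ x`, `tau = 504 ρ (X / p) / l + 9 L`. Case `X ≤ w p`: `up_A` with `B = exp 1` (`exp 1 - 1 ≤ 2`, `log B = 1`), `num_A`: exponent `≤ -9 L`.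
Case `w p ≤ X`: `up_B` with `τ' = 252 w / log z + 9 L`, `num_B`, monotonicity of `cnt` in the threshold, `2 X / (w p) ≤ 2 X ≤ x ^ 2`.
If `x < p exp (k / 2)`, `tau ≥ 40 L / k`: `num_Cw`, `up_A` with `B = exp (k / 4)`, `num_C`. (`14 ≤ l / 2 ≤ log (X / x) ≤ log (X / p)`; `q ≤ z < p` gives coprimality.) -/
theorem Rs.prob_up (h : Rs x w z X L l k ρ) {p c : ℕ} (hp : p ∈ pw z x) :
    (cnt (fun s => tau x X L l k ρ p < (s : ℝ)) (pw w z).toList (Tc X p c) : ℝ) ≤
      (pw w z).toList.prod * ((x : ℝ) ^ 2 * Real.exp (-(9 * L))) := by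
  obtain ⟨hw, hwX, hX, h14, hx2⟩ := h.Prob_basic
  obtain ⟨hl0, hL0, -, -, -⟩ := h.basic
  obtain ⟨g1, g2, g3, g4, g5, g6, g7⟩ := h.logs
  have hk := h.hk1
  rw [mem_pw] at hp
  obtain ⟨hpp, hzp, hpx⟩ := hp
  have hw' : (1 : ℝ) ≤ w := by exact_mod_cast hw
  have hX' : (0 : ℝ) < X := by exact_mod_cast hX
  have hp0 : (0 : ℝ) < p := by exact_mod_cast hpp.pos
  have hp1 : (1 : ℝ) ≤ p := by exact_mod_cast hpp.one_lt.le
  have hpx' : (p : ℝ) ≤ x := by exact_mod_cast hpx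
  have hpX : p ≤ X := hpx.trans h.XX.1
  have hwp : w < p := lt_of_le_of_lt h.hwz hzp
  have hlist : ∀ q ∈ (pw w z).toList, 2 ≤ q ∧ w < q ∧ Nat.Coprime q p := by
    intro q hq
    obtain ⟨q1, q2, q3⟩ := Prob_mem hq
    refine ⟨q1.two_le, q2, (Nat.coprime_primes q1 hpp).2 ?_⟩
    omega
  have hx0 : (0 : ℝ) < x := by linarith
  have hlog : 14 ≤ Real.log ((X : ℝ) / p) := by
    refine h14.trans (h.XX.2.1.trans (Real.log_le_log (by positivity) ?_))
    exact div_le_div_of_nonneg_left hX'.le hp0 hpx'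
  have hP0 : 0 ≤ PP (pw w z).toList :=
    (PP_bound _ fun q hq => (Prob_mem hq).1.pos).1
  have hP3 := h.PPρ.2
  have hfin : ∀ e : ℝ, e ≤ -(9 * L) → ∀ f : ℝ, 0 ≤ f → f ≤ (x : ℝ) ^ 2 →
      ((pw w z).toList.prod : ℝ) * (f * Real.exp e) ≤
      (pw w z).toList.prod * ((x : ℝ) ^ 2 * Real.exp (-(9 * L))) := by
    intro e he f hf0 hf
    refine mul_le_mul_of_nonneg_left ?_ (Nat.cast_nonneg _)
    exact mul_le_mul hf (Real.exp_le_exp.2 he) (Real.exp_pos _).le (by positivity)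
  have hfin1 : ∀ e : ℝ, e ≤ -(9 * L) → ((pw w z).toList.prod : ℝ) * Real.exp e ≤
      (pw w z).toList.prod * ((x : ℝ) ^ 2 * Real.exp (-(9 * L))) := by
    intro e he
    have h1 := hfin e he 1 zero_le_one hx2
    rwa [one_mul] at h1
  by_cases hc : (p : ℝ) * Real.exp (k / 2) ≤ x
  · have htau : tau x X L l k ρ p = 504 * (ρ * (X / p)) / l + 9 * L := by
      unfold tau
      rw [if_pos hc]
    rcases le_total X (w * p) with hXw | hXw
    · have h1 := up_A (c := c) (B := Real.exp 1) (τ := tau x X L l k ρ p) hpp hlist Prob_cop hXw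
        hwp hpX hlog (Real.one_le_exp zero_le_one)
      refine h1.trans (hfin1 _ ?_)
      rw [Real.log_exp, mul_one, htau]
      have h2 := h.num_A hP0 hP3 hpp.pos hpx
      have h3 : (Real.exp 1 - 1) * PP (pw w z).toList *
          (42 * ((X : ℝ) / p) / Real.log ((X : ℝ) / p)) ≤
          2 * PP (pw w z).toList * (42 * ((X : ℝ) / p) / Real.log ((X : ℝ) / p)) := by
        have h4 := Real.exp_one_lt_d9
        refine mul_le_mul_of_nonneg_right (mul_le_mul_of_nonneg_right ?_ hP0) ?_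
        · linarith
        · have : 0 ≤ Real.log ((X : ℝ) / p) := by linarith
          positivity
      linarith
    · have hlz : 0 < Real.log (z : ℝ) := by linarith
      have h1 := up_B (c := c) (τ := 252 * (w : ℝ) / Real.log z + 9 * L) hpp hlist Prob_cop hXw
        hwp (by linarith) (by positivity)
      obtain ⟨h2, h3⟩ := h.num_B hP0 hP3 hpp.pos
      have h4 := Prob_mono (a := 2 * ((X : ℝ) / (w * p)) * (252 * (w : ℝ) / Real.log z + 9 * L))
        (b := tau x X L l k ρ p) (by rw [htau]; linarith) (pw w z).toList (Tc X p c)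
      have h5 : (cnt (fun s => tau x X L l k ρ p < (s : ℝ)) (pw w z).toList (Tc X p c) : ℝ) ≤
          (cnt (fun s => 2 * ((X : ℝ) / (w * p)) * (252 * (w : ℝ) / Real.log z + 9 * L) <
            (s : ℝ)) (pw w z).toList (Tc X p c) : ℝ) := by exact_mod_cast h4
      refine h5.trans (h1.trans (hfin _ h2 _ (by positivity) ?_))
      have h6 : (X : ℝ) / (w * p) ≤ X := by
        refine div_le_self hX'.le ?_
        nlinarith
      linarith [h.XX.2.2.2.1]
  · have htau : tau x X L l k ρ p = 504 * (ρ * (X / p)) / l + 40 * L / k := by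
      unfold tau
      rw [if_neg hc]
    rw [not_le] at hc
    have hXw := h.num_Cw hc
    have hk0 : 0 < k := by linarith
    have hτ : 40 * L / k ≤ tau x X L l k ρ p := by
      rw [htau]
      have : 0 ≤ 504 * (ρ * ((X : ℝ) / p)) / l := by positivity
      linarith
    have h1 := up_A (c := c) (B := Real.exp (k / 4)) (τ := tau x X L l k ρ p) hpp hlist Prob_cop
      hXw hwp hpX hlog (Real.one_le_exp (by positivity))
    exact h1.trans (hfin1 _ (h.num_C hP0 hP3 hpx hc hτ))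

end Pool.MP42e49e.RS
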